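import Pool.Agent.Work.MP_29fd3c_cd.Poly

/-!
# The analytic core
-/

set_option autoImplicit false

namespace Pool.TCD

open Finset Complex Matrix Pool.TH Pool.TK

variable {g : ℕ}

theorem qf_eq (P : Matrix (Fin g) (Fin g) ℝ) (v : Fin g → ℝ) :
    qf P v = ∑ i, ∑ j, v i * v j * P i j := by
  simp only [qf, dotProduct, Matrix.mulVec, mul_sum]
  exact sum_congr rfl (fun i _ => sum_congr rfl (fun j _ => by ring))

theorem dot_symm {P : Matrix (Fin g) (Fin g) ℝ} (hP : P.transpose = P) (v w : Fin g → ℝ) :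
    v ⬝ᵥ (P *ᵥ w) = w ⬝ᵥ (P *ᵥ v) := by
  rw [Matrix.dotProduct_mulVec, ← Matrix.mulVec_transpose, hP, dotProduct_comm]

theorem qf_add {P : Matrix (Fin g) (Fin g) ℝ} (hP : P.transpose = P) (v w : Fin g → ℝ) :
    qf P (v + w) = qf P v + 2 * (v ⬝ᵥ (P *ᵥ w)) + qf P w := by
  unfold qf
  rw [Matrix.mulVec_add, add_dotProduct, dotProduct_add, dotProduct_add, dot_symm hP w v]
  ring

theorem qf_sub {P : Matrix (Fin g) (Fin g) ℝ} (hP : P.transpose = P) (v w : Fin g → ℝ) :
    qf P (v - w) = qf P v - 2 * (v ⬝ᵥ (P *ᵥ w)) + qf P w := by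
  unfold qf
  rw [Matrix.mulVec_sub, sub_dotProduct, dotProduct_sub, dotProduct_sub, dot_symm hP w v]
  ring

theorem norm_term_qf {τ : Matrix (Fin g) (Fin g) ℂ} (hτ : τ.transpose = τ) {z : Fin g → ℂ}
    {x : Fin g → ℝ} (hx : ∀ i, (z i).im = -((τ.map Complex.im) *ᵥ x) i) (n : Fin g → ℤ) :
    ‖term τ z n‖ = Real.exp (-(Real.pi * (qf (τ.map Complex.im) (zc n - x) -
      qf (τ.map Complex.im) x))) := by
  have hP : (τ.map Complex.im).transpose = τ.map Complex.im := by
    rw [← Matrix.transpose_map, hτ]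
  rw [norm_term, qf_sub hP]
  congr 1
  have h1 : ∑ i, ∑ j, (n i : ℝ) * (n j : ℝ) * (τ i j).im = qf (τ.map Complex.im) (zc n) := by
    rw [qf_eq]
    rfl
  have h2 : ∑ i, (n i : ℝ) * (z i).im = -(zc n ⬝ᵥ ((τ.map Complex.im) *ᵥ x)) := by
    simp only [hx, dotProduct, zc, mul_neg, Finset.sum_neg_distrib]
  rw [h1, h2]
  ring

theorem N1_le_sq (n : Fin g → ℤ) : N1 n ≤ ∑ i, (n i : ℝ) ^ 2 := by
  refine sum_le_sum fun i _ => ?_
  have h1 : |n i| ≤ (n i) ^ 2 := by
    rw [← sq_abs]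
    rcases eq_or_ne (n i) 0 with h | hk
    · simp [h]
    · have : 1 ≤ |n i| := Int.one_le_abs hk
      nlinarith
  exact_mod_cast h1

theorem dot_self (v : Fin g → ℝ) : v ⬝ᵥ v = ∑ i, v i ^ 2 := by
  simp only [dotProduct, pow_two]

theorem dom_of_posDef {τ : Matrix (Fin g) (Fin g) ℂ}
    (hY : (τ.map Complex.im).PosDef) (z : Fin g → ℂ) : Dom τ z := by
  obtain ⟨c, hc, hlow⟩ := POIX.exists_lower _ hY
  intro B
  set b : ℝ := 2 * Real.pi * (∑ i, |(z i).im|) + B + 1 with hb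
  set lam : ℝ := Real.pi * c with hlam
  have hlam0 : 0 < lam := mul_pos Real.pi_pos hc
  refine Summable.of_nonneg_of_le (fun n => by positivity) (fun n => ?_)
    ((summable_exp_N1 g).mul_left (Real.exp (g * (b ^ 2 / (4 * lam)))))
  rw [norm_term, ← Real.exp_add, ← Real.exp_add, Real.exp_le_exp]
  have h1 : c * ∑ i, (n i : ℝ) ^ 2 ≤ ∑ i, ∑ j, (n i : ℝ) * (n j : ℝ) * (τ i j).im := by
    have := hlow (zc n)
    rw [dot_self, qf_eq] at this
    exact this
  have h2 : -(2 * Real.pi * ∑ i, (n i : ℝ) * (z i).im) ≤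
      (2 * Real.pi * (∑ i, |(z i).im|)) * N1 n := by
    have h3 : |∑ i, (n i : ℝ) * (z i).im| ≤ (∑ i, |(z i).im|) * N1 n := by
      refine (abs_sum_le_sum_abs _ _).trans ?_
      rw [N1, mul_sum]
      refine sum_le_sum (fun i _ => ?_)
      rw [abs_mul, mul_comm]
      exact mul_le_mul_of_nonneg_right (single_le_sum (f := fun i => |(z i).im|)
        (fun _ _ => abs_nonneg _) (mem_univ i)) (abs_nonneg _)
    have h4 := neg_abs_le (∑ i, (n i : ℝ) * (z i).im)
    have h5 := Real.pi_pos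
    nlinarith
  have h3 : ∀ i : Fin g, b * |(n i : ℝ)| ≤ lam * (n i : ℝ) ^ 2 + b ^ 2 / (4 * lam) := by
    intro i
    have h4 : 0 ≤ (2 * lam * |(n i : ℝ)| - b) ^ 2 / (4 * lam) := by positivity
    have h5 : (2 * lam * |(n i : ℝ)| - b) ^ 2 / (4 * lam) =
        lam * (n i : ℝ) ^ 2 + b ^ 2 / (4 * lam) - b * |(n i : ℝ)| := by
      rw [← sq_abs (n i : ℝ)]
      field_simp
      ring
    linarith
  have h4 : b * N1 n ≤ lam * ∑ i, (n i : ℝ) ^ 2 + g * (b ^ 2 / (4 * lam)) := by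
    rw [N1, mul_sum, mul_sum]
    refine (sum_le_sum (fun i _ => h3 i)).trans ?_
    rw [sum_add_distrib, sum_const, card_univ, Fintype.card_fin, nsmul_eq_mul]
  have h5 : lam * ∑ i, (n i : ℝ) ^ 2 ≤
      Real.pi * ∑ i, ∑ j, (n i : ℝ) * (n j : ℝ) * (τ i j).im := by
    rw [hlam, mul_assoc]
    exact mul_le_mul_of_nonneg_left h1 Real.pi_pos.le
  rw [hb] at h4
  rw [hb]
  linarith

/-- the core: one term dominates -/
theorem core (g d : ℕ) (M : ℝ) (hM : 0 ≤ M) : ∃ K₀ : ℝ, 0 < K₀ ∧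
    ∀ τ : Matrix (Fin g) (Fin g) ℂ, τ.transpose = τ → (τ.map Complex.im).PosDef →
    ∀ (z : Fin g → ℂ) (x : Fin g → ℝ), (∀ i, (z i).im = -((τ.map Complex.im) *ᵥ x) i) →
    ∀ (u : Fin g → ℤ) (f : (Fin g → ℤ) → ℝ), f ∈ Poly ℝ g d → f u = 1 →
    (∀ n, |f n| ≤ M * Real.exp (M * N1 (n - u))) →
    (∀ n, n ≠ u → f n ≠ 0 → K₀ * (1 + N1 (n - u)) ≤
      qf (τ.map Complex.im) (zc n - x) - qf (τ.map Complex.im) (zc u - x)) →
    ∃ m ≤ d, iteratedFDeriv ℂ m (theta τ) z ≠ 0 := by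
  set S : ℝ := ∑' n : Fin g → ℤ, Real.exp (-N1 n) with hS
  have hS0 : 0 ≤ S := tsum_nonneg fun _ => (Real.exp_pos _).le
  refine ⟨M * S + M + 1, by positivity, ?_⟩
  intro τ hτ hY z x hx u f hf hu hb hgap
  by_contra hcon
  push Not at hcon
  have hD := dom_of_posDef hY z
  have h0 := der_poly hD hcon hf
  have hsum := poly_summable hD hf
  rw [hsum.tsum_eq_add_tsum_ite u, hu] at h0
  have hnt : 0 < ‖term τ z u‖ := norm_pos_iff.2 (term_ne _ _ _)
  set K : ℝ := M * S + M + 1 with hK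
  have hKpi : K ≤ Real.pi * K := by
    have : (1 : ℝ) ≤ Real.pi := by linarith [Real.pi_gt_three]
    nlinarith [show (0 : ℝ) < K by rw [hK]; positivity]
  have hbound : ∀ n : Fin g → ℤ,
      ‖(if n = u then (0 : ℂ) else (f n : ℂ) * term τ z n)‖ ≤
        (‖term τ z u‖ * (M * Real.exp (-K))) * Real.exp (-N1 (n - u)) := by
    intro n
    by_cases hn : n = u
    · rw [if_pos hn, norm_zero]
      positivity
    rw [if_neg hn, norm_mul, Complex.norm_real, Real.norm_eq_abs]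
    by_cases hfn : f n = 0
    · rw [hfn, abs_zero, zero_mul]
      positivity
    have h1 := hgap n hn hfn
    have h2 : ‖term τ z n‖ ≤ ‖term τ z u‖ * Real.exp (-(Real.pi * (K * (1 + N1 (n - u))))) := by
      rw [norm_term_qf hτ hx, norm_term_qf hτ hx, ← Real.exp_add, Real.exp_le_exp]
      have := mul_le_mul_of_nonneg_left h1 Real.pi_pos.le
      linarith
    calc |f n| * ‖term τ z n‖ ≤ (M * Real.exp (M * N1 (n - u))) *
          (‖term τ z u‖ * Real.exp (-(Real.pi * (K * (1 + N1 (n - u)))))) :=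
          mul_le_mul (hb n) h2 (norm_nonneg _) (by positivity)
      _ = ‖term τ z u‖ * M * Real.exp (M * N1 (n - u) - Real.pi * K * (1 + N1 (n - u))) := by
          rw [Real.exp_sub, Real.exp_neg]
          rw [show Real.pi * (K * (1 + N1 (n - u))) = Real.pi * K * (1 + N1 (n - u)) by ring]
          field_simp
      _ ≤ ‖term τ z u‖ * M * Real.exp (-K - N1 (n - u)) := by
          refine mul_le_mul_of_nonneg_left (Real.exp_le_exp.2 ?_) (by positivity)
          have h3 := N1_nonneg (n - u)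
          have h4 : K * (1 + N1 (n - u)) ≤ Real.pi * K * (1 + N1 (n - u)) :=
            mul_le_mul_of_nonneg_right hKpi (by linarith)
          have h5 : (M + 1) * N1 (n - u) ≤ K * N1 (n - u) := by
            refine mul_le_mul_of_nonneg_right ?_ h3
            rw [hK]
            have : 0 ≤ M * S := by positivity
            linarith
          nlinarith
      _ = (‖term τ z u‖ * (M * Real.exp (-K))) * Real.exp (-N1 (n - u)) := by
          rw [sub_eq_add_neg, Real.exp_add]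
          ring
  have hsumS : HasSum (fun n : Fin g → ℤ => Real.exp (-N1 (n - u))) S := by
    have := (summable_exp_N1 g).hasSum
    exact (Equiv.subRight u).hasSum_iff.2 this
  have hle := tsum_of_norm_bounded (hsumS.mul_left (‖term τ z u‖ * (M * Real.exp (-K)))) hbound
  have heq : term τ z u = -(∑' n : Fin g → ℤ, if n = u then (0 : ℂ) else (f n : ℂ) * term τ z n) := by
    have h1 : ((1 : ℝ) : ℂ) * term τ z u + _ = 0 := h0
    rw [Complex.ofReal_one, one_mul] at h1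
    exact eq_neg_of_add_eq_zero_left h1
  have h6 : ‖term τ z u‖ ≤ ‖term τ z u‖ * (M * Real.exp (-K)) * S := by
    calc ‖term τ z u‖ = ‖∑' n : Fin g → ℤ, if n = u then (0 : ℂ) else (f n : ℂ) * term τ z n‖ := by
          conv_lhs => rw [heq]
          rw [norm_neg]
      _ ≤ _ := hle
  have h7 : M * Real.exp (-K) * S < 1 := by
    have h8 : K + 1 ≤ Real.exp K := Real.add_one_le_exp K
    rw [Real.exp_neg]
    have h9 : M * (Real.exp K)⁻¹ * S = (M * S) / Real.exp K := by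
      rw [div_eq_mul_inv]; ring
    rw [h9, div_lt_one (Real.exp_pos _)]
    rw [hK] at h8 ⊢
    linarith
  have h8 : ‖term τ z u‖ * (M * Real.exp (-K)) * S = ‖term τ z u‖ * (M * Real.exp (-K) * S) := by
    ring
  rw [h8] at h6
  nlinarith

end Pool.TCD
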