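import Pool.Agent.Work.MP_29fd3c_cd.PartD

/-!
# Totally unimodular systems, uniformly in the spanning set
-/

set_option autoImplicit false

namespace Pool.TCD

open Finset Complex Matrix Pool.TH Pool.TK

variable {g : ℕ} {ι : Type} [Fintype ι]

/-- one spanning set -/
theorem tu_one (V : Matrix ι (Fin g) ℤ) (hV : V.IsTotallyUnimodular) (S : Finset ι) :
    ∃ η : ℝ, 0 < η ∧
      ((∀ x : Fin g → ℝ, (∀ e ∈ S, ∑ i, (V e i : ℝ) * x i = 0) → x = 0) →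
      ∀ c : ι → ℝ, (∀ e ∈ S, c e ≠ 0) → (∀ i, ∑ e ∈ S, c e * (V e i : ℝ) = 0) →
      ∀ τ : Matrix (Fin g) (Fin g) ℂ, τ.transpose = τ → (τ.map Complex.im).PosDef →
      ∀ (t : ℝ) (s : ι → ℝ), 1 / η ≤ t → (∀ e, 0 ≤ s e) → (∀ e ∈ S, t ≤ s e) →
      (∀ i j, |(τ i j).im - ∑ e, s e * (V e i : ℝ) * (V e j : ℝ)| ≤ η * t) →
      ∀ z : Fin g → ℂ, ∃ k ≤ S.card / 2, iteratedFDeriv ℂ k (theta τ) z ≠ 0) := by
  by_cases hspan : ∀ x : Fin g → ℝ, (∀ e ∈ S, ∑ i, (V e i : ℝ) * x i = 0) → x = 0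
  · by_cases hrel : ∃ c : ι → ℝ, (∀ e ∈ S, c e ≠ 0) ∧ ∀ i, ∑ e ∈ S, c e * (V e i : ℝ) = 0
    · obtain ⟨c, hc, hcr⟩ := hrel
      have hinj : ∀ x : Fin g → ℝ, (∀ e, rhat (fun e i => V e i) x e = 0) → x = 0 :=
        fun x hx => hspan x fun e _ => hx e
      have hU : Unim (fun e i => V e i) S :=
        ⟨hspan, fun n hn => tu_conf (fun e i => V e i) hV hinj n hn⟩
      obtain ⟨η, hη, H⟩ := matroidal (fun e i => V e i) S hU (S.card / 2)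
        (fas_relation hU c hc hcr)
      exact ⟨η, hη, fun _ _ _ _ => H⟩
    · exact ⟨1, one_pos, fun _ c hc hcr => absurd ⟨c, hc, hcr⟩ hrel⟩
  · exact ⟨1, one_pos, fun h => absurd h hspan⟩

/-- all spanning sets -/
theorem tu_all (V : Matrix ι (Fin g) ℤ) (hV : V.IsTotallyUnimodular) :
    ∃ η : ℝ, 0 < η ∧ ∀ S : Finset ι,
      (∀ x : Fin g → ℝ, (∀ e ∈ S, ∑ i, (V e i : ℝ) * x i = 0) → x = 0) →
      ∀ c : ι → ℝ, (∀ e ∈ S, c e ≠ 0) → (∀ i, ∑ e ∈ S, c e * (V e i : ℝ) = 0) →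
      ∀ τ : Matrix (Fin g) (Fin g) ℂ, τ.transpose = τ → (τ.map Complex.im).PosDef →
      ∀ (t : ℝ) (s : ι → ℝ), 1 / η ≤ t → (∀ e, 0 ≤ s e) → (∀ e ∈ S, t ≤ s e) →
      (∀ i j, |(τ i j).im - ∑ e, s e * (V e i : ℝ) * (V e j : ℝ)| ≤ η * t) →
      ∀ z : Fin g → ℂ, ∃ k ≤ S.card / 2, iteratedFDeriv ℂ k (theta τ) z ≠ 0 := by
  classical
  choose η hη H using fun S : Finset ι => tu_one V hV S
  obtain ⟨S₀, -, hmin⟩ := Finset.exists_min_image Finset.univ η ⟨∅, Finset.mem_univ _⟩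
  refine ⟨η S₀, hη S₀, ?_⟩
  intro S hspan c hc hcr τ hτ hpos t s ht hs0 hst hcl z
  have hle := hmin S (Finset.mem_univ _)
  have ht0 : 0 < t := lt_of_lt_of_le (one_div_pos.2 (hη S₀)) ht
  refine H S hspan c hc hcr τ hτ hpos t s ?_ hs0 hst ?_ z
  · exact le_trans (one_div_le_one_div_of_le (hη S₀) hle) ht
  · exact fun i j => (hcl i j).trans (mul_le_mul_of_nonneg_right hle ht0.le)

end Pool.TCD
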