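import Pool.Agent.Work.MP_29fd3c_cd.Core

/-!
# All cusp directions
-/

set_option autoImplicit false

namespace Pool.TCD

open Finset Complex Matrix Pool.TH Pool.TK

variable {g : ℕ}

theorem zc_sub (n u : Fin g → ℤ) : zc (n - u) = zc n - zc u := by
  funext i; simp [zc]

theorem zc_add (n u : Fin g → ℤ) : zc (n + u) = zc n + zc u := by
  funext i; simp [zc]

/-- difference of the distances to `x` -/
theorem diff_eq {P : Matrix (Fin g) (Fin g) ℝ} (hP : P.transpose = P) (n u : Fin g → ℤ)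
    (x : Fin g → ℝ) : qf P (zc n - x) - qf P (zc u - x) =
      qf P (zc (n - u)) + 2 * (zc (n - u) ⬝ᵥ (P *ᵥ (zc u - x))) := by
  have h1 : zc n - x = zc (n - u) + (zc u - x) := by
    rw [zc_sub]; abel
  rw [h1, qf_add hP]
  ring

theorem dot_abs_le (n : Fin g → ℤ) (v : Fin g → ℝ) {c : ℝ} (hv : ∀ i, |v i| ≤ c) :
    |zc n ⬝ᵥ v| ≤ c * N1 n := by
  rw [dotProduct, N1, mul_sum]
  refine (abs_sum_le_sum_abs _ _).trans (sum_le_sum fun i _ => ?_)
  rw [abs_mul, mul_comm]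
  exact mul_le_mul_of_nonneg_right (hv i) (abs_nonneg _)

theorem qf_abs_le {P : Matrix (Fin g) (Fin g) ℝ} {c : ℝ} (hc : 0 ≤ c) (hP : ∀ i j, |P i j| ≤ c)
    (n : Fin g → ℤ) : |qf P (zc n)| ≤ c * g * ∑ i, (n i : ℝ) ^ 2 := by
  rw [qf_eq]
  have h1 : ∀ i j : Fin g, |zc n i * zc n j * P i j| ≤ c * ((n i : ℝ) ^ 2 / 2 + (n j : ℝ) ^ 2 / 2) := by
    intro i j
    rw [abs_mul, mul_comm]
    refine mul_le_mul (hP i j) ?_ (abs_nonneg _) hc
    rw [abs_mul, zc, zc]
    nlinarith [sq_nonneg (|(n i : ℝ)| - |(n j : ℝ)|), sq_abs (n i : ℝ), sq_abs (n j : ℝ)]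
  refine (abs_sum_le_sum_abs _ _).trans ?_
  refine (sum_le_sum (fun i _ => abs_sum_le_sum_abs _ _)).trans ?_
  refine (sum_le_sum (fun i _ => sum_le_sum (fun j _ => h1 i j))).trans ?_
  have h3 : ∀ i : Fin g, ∑ j : Fin g, c * ((n i : ℝ) ^ 2 / 2 + (n j : ℝ) ^ 2 / 2) =
      c * (g * ((n i : ℝ) ^ 2 / 2) + (∑ j, (n j : ℝ) ^ 2) / 2) := by
    intro i
    rw [← mul_sum]
    congr 1
    simp only [sum_add_distrib, sum_const, card_univ, Fintype.card_fin, nsmul_eq_mul, ← sum_div]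
  simp only [h3]
  rw [← mul_sum, sum_add_distrib, ← mul_sum, ← sum_div, sum_const, card_univ, Fintype.card_fin,
    nsmul_eq_mul]
  refine le_of_eq ?_
  ring

theorem mulVec_abs_le {P : Matrix (Fin g) (Fin g) ℝ} {c R : ℝ} (hc : 0 ≤ c)
    (hP : ∀ i j, |P i j| ≤ c) (v : Fin g → ℝ) (hv : ∀ i, |v i| ≤ R) (i : Fin g) :
    |(P *ᵥ v) i| ≤ c * g * R := by
  unfold Matrix.mulVec dotProduct
  refine (abs_sum_le_sum_abs _ _).trans ?_
  calc ∑ j, |P i j * v j| ≤ ∑ _j : Fin g, c * R := by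
        refine sum_le_sum fun j _ => ?_
        rw [abs_mul]
        exact mul_le_mul (hP i j) (hv j) (abs_nonneg _) hc
    _ = c * g * R := by
        rw [sum_const, card_univ, Fintype.card_fin, nsmul_eq_mul]; ring

/-- a quadratic function with bounded linear part is bounded below up to finitely many points -/
theorem finite_sub {P : Matrix (Fin g) (Fin g) ℝ} (hP : P.PosDef) (w : Fin g → ℝ) :
    ∃ lam : ℝ, 0 < lam ∧ ∀ C : ℝ,
      {n : Fin g → ℤ | qf P (zc n) + zc n ⬝ᵥ w < lam * (C + ∑ i, (n i : ℝ) ^ 2)}.Finite := by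
  obtain ⟨c, hc, hlow⟩ := POIX.exists_lower _ hP
  refine ⟨c / 4, by positivity, fun C => ?_⟩
  -- `|n i| ≤ R`
  set W : ℝ := ∑ i, |w i| with hW
  have hW0 : 0 ≤ W := sum_nonneg fun _ _ => abs_nonneg _
  obtain ⟨R, hR⟩ : ∃ R : ℕ, (g : ℝ) * (W ^ 2 / c) / (c / 4) + |C| + W / (c / 8) + 1 ≤ R :=
    exists_nat_ge _
  refine Set.Finite.subset (s := Set.pi Set.univ fun _ : Fin g => Set.Icc (-(R : ℤ)) (R : ℤ))
    (Set.Finite.pi fun _ => Set.finite_Icc _ _) ?_
  intro n hn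
  rw [Set.mem_ofPred_eq] at hn
  have h1 := hlow (zc n)
  rw [dot_self] at h1
  have h1' : c * ∑ i, (n i : ℝ) ^ 2 ≤ qf P (zc n) := h1
  have h2 : -(W * N1 n) ≤ zc n ⬝ᵥ w := by
    have := dot_abs_le n w (c := W) fun i => single_le_sum (f := fun i => |w i|)
      (fun _ _ => abs_nonneg _) (mem_univ i)
    exact (abs_le.1 this).1
  have h3 : W * N1 n ≤ (c / 4) * ∑ i, (n i : ℝ) ^ 2 + g * (W ^ 2 / c) := by
    rw [N1, mul_sum, mul_sum]
    calc ∑ i, W * |(n i : ℝ)| ≤ ∑ i : Fin g, ((c / 4) * (n i : ℝ) ^ 2 + W ^ 2 / c) := by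
          refine sum_le_sum fun i _ => ?_
          have h4 : 0 ≤ (c / 2 * |(n i : ℝ)| - W) ^ 2 / c := by positivity
          have h5 : (c / 2 * |(n i : ℝ)| - W) ^ 2 / c =
              (c / 4) * (n i : ℝ) ^ 2 + W ^ 2 / c - W * |(n i : ℝ)| := by
            rw [← sq_abs (n i : ℝ)]
            field_simp
            ring
          linarith
      _ = _ := by
          rw [sum_add_distrib, sum_const, card_univ, Fintype.card_fin, nsmul_eq_mul]
  -- so the sum of the squares is bounded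
  have h6 : (c / 2) * ∑ i, (n i : ℝ) ^ 2 ≤ g * (W ^ 2 / c) + c / 4 * |C| := by
    have := le_abs_self C
    nlinarith
  have h7 : ∑ i, (n i : ℝ) ^ 2 ≤ R := by
    refine le_trans ?_ hR
    have h8 : ∑ i, (n i : ℝ) ^ 2 ≤ (g * (W ^ 2 / c) + c / 4 * |C|) / (c / 2) := by
      rw [le_div_iff₀ (by positivity)]
      linarith
    refine h8.trans ?_
    have h9 : (g * (W ^ 2 / c) + c / 4 * |C|) / (c / 2) ≤
        (g : ℝ) * (W ^ 2 / c) / (c / 4) + |C| := by
      rw [div_le_iff₀ (by positivity)]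
      have e1 : ((g : ℝ) * (W ^ 2 / c) / (c / 4) + |C|) * (c / 2) =
          2 * ((g : ℝ) * (W ^ 2 / c)) + c / 2 * |C| := by
        field_simp
        ring
      rw [e1]
      have : 0 ≤ (g : ℝ) * (W ^ 2 / c) := by positivity
      have := abs_nonneg C
      nlinarith
    have h10 : 0 ≤ W / (c / 8) := by positivity
    linarith
  rw [Set.mem_univ_pi]
  intro i
  have h8 : ((n i : ℤ) : ℝ) ^ 2 ≤ R :=
    (single_le_sum (f := fun i => (n i : ℝ) ^ 2) (fun _ _ => sq_nonneg _) (mem_univ i)).trans h7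
  have h9 : (n i) ^ 2 ≤ (R : ℤ) := by exact_mod_cast h8
  have h10 : |n i| ≤ (n i) ^ 2 := by
    rw [← sq_abs]
    rcases eq_or_ne (n i) 0 with h | hk
    · simp [h]
    · have : 1 ≤ |n i| := Int.one_le_abs hk
      nlinarith
  rw [Set.mem_Icc]
  exact abs_le.1 (h10.trans h9)

/-- a lower bound for a positive function of this kind -/
theorem lower_pos {P : Matrix (Fin g) (Fin g) ℝ} (hP : P.PosDef) (w : Fin g → ℝ)
    (S : Set (Fin g → ℤ)) (hS : ∀ n ∈ S, 0 < qf P (zc n) + zc n ⬝ᵥ w) :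
    ∃ δ : ℝ, 0 < δ ∧ ∀ n ∈ S, δ * (1 + ∑ i, (n i : ℝ) ^ 2) ≤ qf P (zc n) + zc n ⬝ᵥ w := by
  classical
  obtain ⟨lam, hlam, hfin⟩ := finite_sub hP w
  have hf := hfin 1
  set T : Finset (Fin g → ℤ) := hf.toFinset.filter (fun n => n ∈ S) with hT
  -- the minimum of the quotient
  have hq : ∃ δ : ℝ, 0 < δ ∧ ∀ n ∈ T, δ * (1 + ∑ i, (n i : ℝ) ^ 2) ≤
      qf P (zc n) + zc n ⬝ᵥ w := by
    have hTS : ∀ n ∈ T, 0 < qf P (zc n) + zc n ⬝ᵥ w := by
      intro n hn
      rw [hT, Finset.mem_filter] at hn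
      exact hS n hn.2
    clear hT
    clear_value T
    induction T using Finset.induction_on with
    | empty => exact ⟨1, one_pos, by simp⟩
    | insert a T _ ih =>
      obtain ⟨δ, hδ, h⟩ := ih fun n hn => hTS n (Finset.mem_insert_of_mem hn)
      have ha := hTS a (Finset.mem_insert_self _ _)
      have hpos : 0 < 1 + ∑ i, (a i : ℝ) ^ 2 := by positivity
      refine ⟨min δ ((qf P (zc a) + zc a ⬝ᵥ w) / (1 + ∑ i, (a i : ℝ) ^ 2)),
        lt_min hδ (by positivity), fun n hn => ?_⟩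
      rw [Finset.mem_insert] at hn
      rcases hn with rfl | hn
      · calc _ ≤ ((qf P (zc n) + zc n ⬝ᵥ w) / (1 + ∑ i, (n i : ℝ) ^ 2)) *
              (1 + ∑ i, (n i : ℝ) ^ 2) := mul_le_mul_of_nonneg_right (min_le_right _ _) hpos.le
          _ = _ := by field_simp
      · refine le_trans (mul_le_mul_of_nonneg_right (min_le_left _ _) (by positivity)) (h n hn)
  obtain ⟨δ, hδ, h⟩ := hq
  refine ⟨min δ lam, lt_min hδ hlam, fun n hn => ?_⟩
  by_cases hnT : n ∈ T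
  · exact le_trans (mul_le_mul_of_nonneg_right (min_le_left _ _) (by positivity)) (h n hnT)
  · have h1 : ¬ (qf P (zc n) + zc n ⬝ᵥ w < lam * (1 + ∑ i, (n i : ℝ) ^ 2)) := by
      intro h2
      apply hnT
      rw [hT, Finset.mem_filter, Set.Finite.mem_toFinset]
      exact ⟨h2, hn⟩
    exact le_trans (mul_le_mul_of_nonneg_right (min_le_right _ _) (by positivity)) (not_lt.1 h1)

end Pool.TCD
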