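import Pool.Agent.Work.MP_29fd3c_cd.PartA

/-!
# All cusp directions: the theorem
-/

set_option autoImplicit false

namespace Pool.TCD

open Finset Complex Matrix Pool.TH Pool.TK

variable {g : ℕ}

/-- the conclusion at the points with centre congruent to `x` -/
def Good (Y : Matrix (Fin g) (Fin g) ℝ) (d : ℕ) (η : ℝ) (x : Fin g → ℝ) : Prop :=
  ∀ τ : Matrix (Fin g) (Fin g) ℂ, τ.transpose = τ → (τ.map Complex.im).PosDef →
    ∀ t : ℝ, 1 / η ≤ t → (∀ i j, |(τ i j).im - t * Y i j| ≤ η * t) →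
    ∀ (k : Fin g → ℤ) (z : Fin g → ℂ),
      (∀ i, (z i).im = -((τ.map Complex.im) *ᵥ (x + zc k)) i) →
      ∃ m ≤ d, iteratedFDeriv ℂ m (theta τ) z ≠ 0

theorem local_good {Y : Matrix (Fin g) (Fin g) ℝ} (hY : Y.PosDef) (hYs : Y.transpose = Y) {d : ℕ}
    (x₀ : Fin g → ℝ) (u : Fin g → ℤ) (f : (Fin g → ℤ) → ℝ) (hf : f ∈ Poly ℝ g d) (hu : f u ≠ 0)
    (hker : ∀ n, n ≠ u → qf Y (zc n - x₀) ≤ qf Y (zc u - x₀) → f n = 0) :
    ∃ η : ℝ, 0 < η ∧ ∀ x : Fin g → ℝ, (∀ i, |x i - x₀ i| ≤ η) → Good Y d η x := by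
  -- normalisation
  wlog hu1 : f u = 1 generalizing f with H
  · refine H ((f u)⁻¹ • f) (Submodule.smul_mem _ _ hf) ?_ ?_ ?_
    · simp [hu]
    · intro n hn hq
      simp [hker n hn hq]
    · simp [hu]
  -- the gap
  obtain ⟨δ, hδ, hgap⟩ := lower_pos hY ((2 : ℝ) • (Y *ᵥ (zc u - x₀)))
    {m : Fin g → ℤ | m ≠ 0 ∧ f (m + u) ≠ 0} (by
      rintro m ⟨hm, hfm⟩
      have h1 := diff_eq hYs (m + u) u x₀
      rw [add_sub_cancel_right] at h1
      rw [dotProduct_smul, smul_eq_mul, ← h1]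
      by_contra hcon
      exact hfm (hker _ (by simpa using hm) (by linarith)))
  -- the bound
  obtain ⟨M₀, hM₀, hb₀⟩ := poly_bound' hf
  obtain ⟨M, hM⟩ : ∃ M : ℝ, M = M₀ * Real.exp (d * N1 u) + d := ⟨_, rfl⟩
  have hM0 : 0 ≤ M := by rw [hM]; positivity
  have hbM : ∀ m : Fin g → ℤ, |f (m + u)| ≤ M * Real.exp (M * N1 m) := by
    intro m
    refine (hb₀ _).trans ?_
    have h1 : N1 (m + u) ≤ N1 m + N1 u := by
      unfold N1
      rw [← sum_add_distrib]
      refine sum_le_sum fun i _ => ?_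
      rw [Pi.add_apply, Int.cast_add]
      exact abs_add_le _ _
    have h2 := N1_nonneg m
    have h4 : 0 ≤ M₀ * Real.exp (d * N1 u) := by positivity
    have h3 : (d : ℝ) ≤ M := by rw [hM]; linarith
    calc M₀ * Real.exp (d * N1 (m + u)) ≤ M₀ * Real.exp (d * N1 u + d * N1 m) := by
          refine mul_le_mul_of_nonneg_left (Real.exp_le_exp.2 ?_) hM₀
          have := mul_le_mul_of_nonneg_left h1 (Nat.cast_nonneg (α := ℝ) d)
          linarith
      _ = (M₀ * Real.exp (d * N1 u)) * Real.exp (d * N1 m) := by rw [Real.exp_add]; ring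
      _ ≤ M * Real.exp (M * N1 m) := by
          refine mul_le_mul ?_ (Real.exp_le_exp.2 (mul_le_mul_of_nonneg_right h3 h2))
            (Real.exp_pos _).le hM0
          rw [hM]
          have : (0 : ℝ) ≤ d := Nat.cast_nonneg _
          linarith
  obtain ⟨K₀, hK₀, hcore⟩ := core g d M hM0
  -- constants
  obtain ⟨R, hR⟩ : ∃ R : ℝ, R = ∑ i, |((u i : ℤ) : ℝ) - x₀ i| + 1 := ⟨_, rfl⟩
  have hR0 : 0 ≤ R := by rw [hR]; positivity
  obtain ⟨C, hC⟩ : ∃ C : ℝ, C = ∑ i, ∑ j, |Y i j| := ⟨_, rfl⟩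
  have hC0 : 0 ≤ C := by rw [hC]; positivity
  have hYC : ∀ i j, |Y i j| ≤ C := by
    intro i j
    rw [hC]
    refine le_trans ?_ (single_le_sum (f := fun i => ∑ j, |Y i j|)
      (fun _ _ => sum_nonneg fun _ _ => abs_nonneg _) (mem_univ i))
    exact single_le_sum (f := fun j => |Y i j|) (fun _ _ => abs_nonneg _) (mem_univ j)
  obtain ⟨G, hG⟩ : ∃ G : ℝ, G = g + 2 * (g * R) + 2 * (C * g) := ⟨_, rfl⟩
  have hG0 : 0 ≤ G := by rw [hG]; positivity
  obtain ⟨η, hη⟩ : ∃ η : ℝ, η = min 1 (min (δ / (2 * (G + 1))) (δ / (2 * K₀))) := ⟨_, rfl⟩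
  have hη0 : 0 < η := by
    rw [hη]
    exact lt_min one_pos (lt_min (by positivity) (by positivity))
  have hη1 : η ≤ 1 := by rw [hη]; exact min_le_left _ _
  have hη2 : η * G ≤ δ / 2 := by
    have h1 : η ≤ δ / (2 * (G + 1)) := by
      rw [hη]; exact (min_le_right _ _).trans (min_le_left _ _)
    rw [le_div_iff₀ (by positivity)] at h1
    nlinarith
  have hη3 : η * K₀ ≤ δ / 2 := by
    have h1 : η ≤ δ / (2 * K₀) := by
      rw [hη]; exact (min_le_right _ _).trans (min_le_right _ _)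
    rw [le_div_iff₀ (by positivity)] at h1
    linarith
  refine ⟨η, hη0, ?_⟩
  intro x hx τ hτ hpos t ht hclose k z hz
  have ht0 : 0 < t := lt_of_lt_of_le (by positivity) ht
  have hηt : 1 ≤ η * t := by
    rw [div_le_iff₀ hη0] at ht
    linarith
  have hPs : (τ.map Complex.im).transpose = τ.map Complex.im := by
    rw [← Matrix.transpose_map, hτ]
  refine hcore τ hτ hpos z (x + zc k) hz (u + k) (fun n => f (n - k)) ?_ ?_ ?_ ?_
  · have := poly_translate hf (-k)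
    simpa [sub_eq_add_neg] using this
  · simp [hu1]
  · intro n
    have := hbM (n - (u + k))
    have e : n - (u + k) + u = n - k := by abel
    rwa [e] at this
  · intro n hn hfn
    obtain ⟨m, hm⟩ : ∃ m, m = n - (u + k) := ⟨_, rfl⟩
    have hm0 : m ≠ 0 := by rw [hm]; exact sub_ne_zero.2 hn
    have hmS : m ∈ {m : Fin g → ℤ | m ≠ 0 ∧ f (m + u) ≠ 0} := by
      refine ⟨hm0, ?_⟩
      have e : m + u = n - k := by rw [hm]; abel
      rw [e]
      exact hfn
    have h1 := hgap m hmS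
    rw [diff_eq hPs, ← hm]
    have e1 : zc (u + k) - (x + zc k) = zc u - x := by
      rw [zc_add]; abel
    rw [e1]
    set P := τ.map Complex.im with hP
    set E : Matrix (Fin g) (Fin g) ℝ := P - t • Y with hE
    have hEb : ∀ i j, |E i j| ≤ η * t := by
      intro i j
      have := hclose i j
      simpa [hE, hP] using this
    have hPE : P = t • Y + E := by rw [hE]; abel
    -- decomposition
    have h2 : qf P (zc m) = t * qf Y (zc m) + qf E (zc m) := by
      rw [hPE]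
      unfold qf
      rw [Matrix.add_mulVec, dotProduct_add, Matrix.smul_mulVec, dotProduct_smul, smul_eq_mul]
    have h3 : zc m ⬝ᵥ (P *ᵥ (zc u - x)) = t * (zc m ⬝ᵥ (Y *ᵥ (zc u - x₀))) +
        t * (zc m ⬝ᵥ (Y *ᵥ (x₀ - x))) + zc m ⬝ᵥ (E *ᵥ (zc u - x)) := by
      have e2 : zc u - x = (zc u - x₀) + (x₀ - x) := by abel
      have e3 : Y *ᵥ (zc u - x) = Y *ᵥ (zc u - x₀) + Y *ᵥ (x₀ - x) := by
        rw [← Matrix.mulVec_add, ← e2]
      rw [hPE, Matrix.add_mulVec, dotProduct_add, Matrix.smul_mulVec, dotProduct_smul, smul_eq_mul,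
        e3, dotProduct_add]
      ring
    have hux : ∀ i, |(zc u - x) i| ≤ R := by
      intro i
      have h4 : |((u i : ℤ) : ℝ) - x₀ i| ≤ ∑ i, |((u i : ℤ) : ℝ) - x₀ i| :=
        single_le_sum (f := fun i => |((u i : ℤ) : ℝ) - x₀ i|) (fun _ _ => abs_nonneg _)
          (mem_univ i)
      have h5 := hx i
      have h6 : (zc u - x) i = (((u i : ℤ) : ℝ) - x₀ i) - (x i - x₀ i) := by
        simp [zc]
      rw [h6, hR]
      refine (abs_sub _ _).trans ?_
      linarith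
    have h4 : |qf E (zc m)| ≤ (η * t) * g * ∑ i, (m i : ℝ) ^ 2 := qf_abs_le (by positivity) hEb m
    have h5 : |zc m ⬝ᵥ (E *ᵥ (zc u - x))| ≤ ((η * t) * g * R) * N1 m :=
      dot_abs_le m _ fun i => mulVec_abs_le (by positivity) hEb _ hux i
    have h6 : |zc m ⬝ᵥ (Y *ᵥ (x₀ - x))| ≤ (C * g * η) * N1 m := by
      refine dot_abs_le m _ fun i => mulVec_abs_le hC0 hYC _ (fun j => ?_) i
      rw [Pi.sub_apply, abs_sub_comm]
      exact hx j
    have h7 := N1_le_sq m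
    have h8 := N1_nonneg m
    rw [dotProduct_smul, smul_eq_mul] at h1
    set Q : ℝ := ∑ i, (m i : ℝ) ^ 2 with hQ
    have h9 := (abs_le.1 h4).1
    have h10 := (abs_le.1 h5).1
    have h11 := (abs_le.1 h6).1
    have h12 : (η * t * g * R) * N1 m ≤ (η * t * g * R) * Q :=
      mul_le_mul_of_nonneg_left h7 (by positivity)
    have h13 : t * ((C * g * η) * N1 m) ≤ t * ((C * g * η) * Q) := by
      refine mul_le_mul_of_nonneg_left (mul_le_mul_of_nonneg_left h7 (by positivity)) ht0.le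
    have h14 : t * -((C * g * η) * N1 m) ≤ t * (zc m ⬝ᵥ (Y *ᵥ (x₀ - x))) :=
      mul_le_mul_of_nonneg_left h11 ht0.le
    have h15 : t * (δ * (1 + Q)) ≤ t * (qf Y (zc m) + 2 * (zc m ⬝ᵥ (Y *ᵥ (zc u - x₀)))) :=
      mul_le_mul_of_nonneg_left h1 ht0.le
    rw [h2, h3]
    have hQ0 : 0 ≤ Q := by rw [hQ]; positivity
    have h16 : t * (η * G) * Q ≤ t * (δ / 2) * Q :=
      mul_le_mul_of_nonneg_right (mul_le_mul_of_nonneg_left hη2 ht0.le) hQ0
    have h17 : K₀ ≤ t * (δ / 2) := by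
      have h18 : t * (η * K₀) ≤ t * (δ / 2) := mul_le_mul_of_nonneg_left hη3 ht0.le
      nlinarith
    have h19 : K₀ * (1 + N1 m) ≤ t * (δ / 2) * (1 + Q) := by
      refine mul_le_mul h17 (by linarith) (by linarith) (by positivity)
    have h20 : t * (η * G) * Q = (η * t) * g * Q + 2 * ((η * t * g * R) * Q) +
        2 * (t * ((C * g * η) * Q)) := by
      rw [hG]; ring
    nlinarith

/-- the theorem with polynomial functions -/
theorem good_of (Y : Matrix (Fin g) (Fin g) ℝ) (hY : Y.PosDef) (d : ℕ)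
    (h : ∀ x : Fin g → ℝ, ∃ u : Fin g → ℤ, ∃ f ∈ Poly ℝ g d, f u ≠ 0 ∧
      ∀ n, n ≠ u → qf Y (zc n - x) ≤ qf Y (zc u - x) → f n = 0) :
    ∃ η : ℝ, 0 < η ∧ ∀ τ : Matrix (Fin g) (Fin g) ℂ, τ.transpose = τ →
      (τ.map Complex.im).PosDef →
      ∀ t : ℝ, 1 / η ≤ t → (∀ i j, |(τ i j).im - t * Y i j| ≤ η * t) →
      ∀ z : Fin g → ℂ, ∃ m ≤ d, iteratedFDeriv ℂ m (theta τ) z ≠ 0 := by
  have hYs : Y.transpose = Y := by
    have := hY.isHermitian.eq
    rwa [Matrix.conjTranspose_eq_transpose_of_trivial] at this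
  have hcomp : IsCompact (Set.Icc (0 : Fin g → ℝ) 1) := isCompact_Icc
  have hmain : ∃ η : ℝ, 0 < η ∧ ∀ x ∈ Set.Icc (0 : Fin g → ℝ) 1, Good Y d η x := by
    refine hcomp.induction_on (p := fun s => ∃ η : ℝ, 0 < η ∧ ∀ x ∈ s, Good Y d η x) ?_ ?_ ?_ ?_
    · exact ⟨1, one_pos, by simp⟩
    · rintro s s' hss ⟨η, hη, h1⟩
      exact ⟨η, hη, fun x hx => h1 x (hss hx)⟩
    · rintro s s' ⟨η, hη, h1⟩ ⟨η', hη', h2⟩
      have hmono : ∀ (a b : ℝ), 0 < a → a ≤ b → ∀ x, Good Y d b x → Good Y d a x := by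
        intro a b ha hab x hg τ hτ hpos t ht hc k z hz
        have ht0 : 0 < t := lt_of_lt_of_le (by positivity) ht
        refine hg τ hτ hpos t ?_ ?_ k z hz
        · exact le_trans (one_div_le_one_div_of_le ha hab) ht
        · exact fun i j => (hc i j).trans (mul_le_mul_of_nonneg_right hab ht0.le)
      refine ⟨min η η', lt_min hη hη', ?_⟩
      rintro x (hx | hx)
      · exact hmono _ _ (lt_min hη hη') (min_le_left _ _) x (h1 x hx)
      · exact hmono _ _ (lt_min hη hη') (min_le_right _ _) x (h2 x hx)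
    · intro x₀ _
      obtain ⟨u, f, hf, hu, hker⟩ := h x₀
      obtain ⟨η, hη, h1⟩ := local_good hY hYs x₀ u f hf hu hker
      refine ⟨Metric.closedBall x₀ η, ?_, η, hη, ?_⟩
      · exact mem_nhdsWithin_of_mem_nhds (Metric.closedBall_mem_nhds _ hη)
      · intro x hx
        refine h1 x fun i => ?_
        have h2 := (dist_pi_le_iff hη.le).1 (Metric.mem_closedBall.1 hx) i
        rwa [Real.dist_eq] at h2
  obtain ⟨η, hη, hgood⟩ := hmain
  refine ⟨η, hη, ?_⟩
  intro τ hτ hpos t ht hc z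
  -- the centre
  set P := τ.map Complex.im with hP
  have hdet : IsUnit P.det := isUnit_iff_ne_zero.2 hpos.det_pos.ne'
  set x : Fin g → ℝ := P⁻¹ *ᵥ (fun i => -(z i).im) with hx
  have hPx : P *ᵥ x = fun i => -(z i).im := by
    rw [hx, Matrix.mulVec_mulVec, Matrix.mul_nonsing_inv _ hdet, Matrix.one_mulVec]
  refine hgood (fun i => Int.fract (x i)) ?_ τ hτ hpos t ht hc (fun i => ⌊x i⌋) z ?_
  · rw [Set.mem_Icc]
    exact ⟨fun i => Int.fract_nonneg _, fun i => (Int.fract_lt_one _).le⟩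
  · have e : (fun i => Int.fract (x i)) + zc (fun i => ⌊x i⌋) = x := by
      funext i
      simp only [Pi.add_apply, zc]
      exact Int.fract_add_floor _
    rw [e]
    intro i
    rw [← hP, hPx]
    simp

end Pool.TCD
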