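import Pool.Agent.Work.MP_29fd3c_cd.PartC

/-!
# Unimodular systems: the combinatorial part
-/

set_option autoImplicit false

namespace Pool.TCD

open Finset Complex Matrix Pool.TH Pool.TK

variable {g : ℕ} {ι : Type}

/-- the image of an integral vector -/
def hat (v : ι → Fin g → ℤ) (n : Fin g → ℤ) (e : ι) : ℤ := ∑ i, v e i * n i

/-- the image of a real vector -/
def rhat (v : ι → Fin g → ℤ) (x : Fin g → ℝ) (e : ι) : ℝ := ∑ i, (v e i : ℝ) * x i

theorem hat_add (v : ι → Fin g → ℤ) (n k : Fin g → ℤ) (e : ι) :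
    hat v (n + k) e = hat v n e + hat v k e := by
  simp [hat, mul_add, sum_add_distrib]

theorem hat_sub (v : ι → Fin g → ℤ) (n k : Fin g → ℤ) (e : ι) :
    hat v (n - k) e = hat v n e - hat v k e := by
  simp [hat, mul_sub, sum_sub_distrib]

theorem hat_neg (v : ι → Fin g → ℤ) (n : Fin g → ℤ) (e : ι) :
    hat v (-n) e = -hat v n e := by
  simp [hat]

theorem hat_zero (v : ι → Fin g → ℤ) (e : ι) : hat v 0 e = 0 := by
  simp [hat]

theorem rhat_zc (v : ι → Fin g → ℤ) (n : Fin g → ℤ) (e : ι) :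
    rhat v (zc n) e = hat v n e := by
  simp [rhat, hat, zc]

theorem rhat_sub (v : ι → Fin g → ℤ) (x y : Fin g → ℝ) (e : ι) :
    rhat v (x - y) e = rhat v x e - rhat v y e := by
  simp [rhat, mul_sub, sum_sub_distrib]

variable [Fintype ι]

/-- unimodular systems of linear forms, those in `S` span -/
structure Unim (v : ι → Fin g → ℤ) (S : Finset ι) : Prop where
  inj : ∀ x : Fin g → ℝ, (∀ e ∈ S, ∑ i, (v e i : ℝ) * x i = 0) → x = 0
  conf : ∀ n : Fin g → ℤ, n ≠ 0 → ∃ k : Fin g → ℤ, k ≠ 0 ∧ ∀ e, |hat v k e| ≤ 1 ∧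
    (hat v k e ≠ 0 → 0 < hat v k e * hat v n e)

theorem Unim.injS {v : ι → Fin g → ℤ} {S : Finset ι} (hv : Unim v S) {n : Fin g → ℤ}
    (hn : ∀ e ∈ S, hat v n e = 0) : n = 0 := by
  have h := hv.inj (zc n) fun e he => by
    have := rhat_zc v n e
    rw [hn e he, Int.cast_zero] at this
    exact this
  funext i
  have h1 := congrFun h i
  simpa [zc] using h1

theorem Unim.inj' {v : ι → Fin g → ℤ} {S : Finset ι} (hv : Unim v S) {n : Fin g → ℤ}
    (hn : ∀ e, hat v n e = 0) : n = 0 := hv.injS fun e _ => hn e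

theorem int_sub {a b : ℤ} (h1 : |a| ≤ 1) (h2 : a ≠ 0 → 0 < a * b) : |b - a| = |b| - |a| := by
  rw [abs_le] at h1
  obtain ⟨h3, h4⟩ := h1
  have h5 : a = -1 ∨ a = 0 ∨ a = 1 := by omega
  rcases h5 with rfl | rfl | rfl
  · have h6 : b < 0 := by
      have := h2 (by norm_num)
      linarith
    rw [abs_of_nonpos (by omega : b - -1 ≤ 0), abs_of_neg h6]
    norm_num
    ring
  · simp
  · have h6 : 0 < b := by
      have := h2 (by norm_num)
      linarith
    rw [abs_of_nonneg (by omega : 0 ≤ b - 1), abs_of_pos h6]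
    norm_num

theorem one_le_sum {v : ι → Fin g → ℤ} {S : Finset ι} (hv : Unim v S) {k : Fin g → ℤ} (hk : k ≠ 0) :
    1 ≤ ∑ e, |hat v k e| := by
  by_contra hcon
  push Not at hcon
  apply hk
  refine hv.inj' fun e => ?_
  have h1 : |hat v k e| ≤ ∑ e, |hat v k e| :=
    single_le_sum (f := fun e => |hat v k e|) (fun _ _ => abs_nonneg _) (mem_univ e)
  have h2 : |hat v k e| ≤ 0 := by omega
  exact abs_nonpos_iff.1 h2

/-- conformal induction -/
theorem conf_ind {v : ι → Fin g → ℤ} {S : Finset ι} (hv : Unim v S) (Φ : (Fin g → ℤ) → Prop) (h0 : Φ 0)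
    (hs : ∀ z k : Fin g → ℤ, k ≠ 0 → (∀ e, |hat v k e| ≤ 1) →
      (∀ e, hat v k e ≠ 0 → 0 < hat v k e * hat v z e) → Φ (z - k) → Φ z) : ∀ z, Φ z := by
  have key : ∀ N : ℕ, ∀ z, (∑ e, |hat v z e|) ≤ N → Φ z := by
    intro N
    induction N with
    | zero =>
      intro z hz
      have h1 : z = 0 := by
        by_contra hz0
        have := one_le_sum hv hz0
        push_cast at hz
        omega
      rw [h1]
      exact h0
    | succ N ih =>
      intro z hz
      by_cases hz0 : z = 0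
      · rw [hz0]; exact h0
      obtain ⟨k, hk, hke⟩ := hv.conf z hz0
      refine hs z k hk (fun e => (hke e).1) (fun e => (hke e).2) (ih _ ?_)
      have h1 : ∑ e, |hat v (z - k) e| = ∑ e, |hat v z e| - ∑ e, |hat v k e| := by
        rw [← sum_sub_distrib]
        exact sum_congr rfl fun e _ => by rw [hat_sub]; exact int_sub (hke e).1 (hke e).2
      have h2 := one_le_sum hv hk
      push_cast at hz
      linarith
  intro z
  exact key (∑ e, |hat v z e|).toNat z (Int.self_le_toNat _)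

/-- the linearised cost -/
def FF (s w : ι → ℝ) (a : ι → ℤ) : ℝ := ∑ e, s e * (|(a e : ℝ)| + 2 * (a e) * w e)

/-- the cost -/
def CC (s w : ι → ℝ) (a : ι → ℤ) : ℝ := ∑ e, s e * ((a e : ℝ) ^ 2 + 2 * (a e) * w e)

theorem CC_eq (s w : ι → ℝ) (a : ι → ℤ) :
    CC s w a = FF s w a + ∑ e, s e * ((a e : ℝ) ^ 2 - |(a e : ℝ)|) := by
  unfold CC FF
  rw [← sum_add_distrib]
  exact sum_congr rfl fun e _ => by ring

theorem sq_eq_abs {a : ℤ} (h : |a| ≤ 1) : (a : ℝ) ^ 2 = |(a : ℝ)| := by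
  rw [abs_le] at h
  obtain ⟨h3, h4⟩ := h
  have h5 : a = -1 ∨ a = 0 ∨ a = 1 := by omega
  rcases h5 with rfl | rfl | rfl <;> norm_num

theorem abs_le_sq (a : ℤ) : |(a : ℝ)| ≤ (a : ℝ) ^ 2 := by
  have h1 : |a| ≤ a ^ 2 := by
    rw [← sq_abs]
    rcases eq_or_ne a 0 with h | hk
    · simp [h]
    · have : 1 ≤ |a| := Int.one_le_abs hk
      nlinarith
  exact_mod_cast h1

theorem CC_elem (s w : ι → ℝ) {a : ι → ℤ} (ha : ∀ e, |a e| ≤ 1) :
    CC s w a = FF s w a := by
  unfold CC FF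
  exact sum_congr rfl fun e _ => by rw [sq_eq_abs (ha e)]

theorem abs_split {v : ι → Fin g → ℤ} {z k : Fin g → ℤ} (hk : ∀ e, |hat v k e| ≤ 1)
    (hke : ∀ e, hat v k e ≠ 0 → 0 < hat v k e * hat v z e) (e : ι) :
    |(hat v z e : ℝ)| = |(hat v (z - k) e : ℝ)| + |(hat v k e : ℝ)| := by
  have h1 := int_sub (hk e) (hke e)
  rw [← hat_sub] at h1
  have h2 : |hat v z e| = |hat v (z - k) e| + |hat v k e| := by omega
  exact_mod_cast h2

theorem FF_split {v : ι → Fin g → ℤ} (s w : ι → ℝ) {z k : Fin g → ℤ}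
    (hk : ∀ e, |hat v k e| ≤ 1) (hke : ∀ e, hat v k e ≠ 0 → 0 < hat v k e * hat v z e) :
    FF s w (hat v z) = FF s w (hat v (z - k)) + FF s w (hat v k) := by
  unfold FF
  rw [← sum_add_distrib]
  refine sum_congr rfl fun e _ => ?_
  rw [abs_split hk hke e, hat_sub]
  push_cast
  ring

theorem claim1 {v : ι → Fin g → ℤ} {S : Finset ι} (hv : Unim v S) (s w : ι → ℝ) (κ : ℝ) (hκ : 0 ≤ κ)
    (h : ∀ k : Fin g → ℤ, (∀ e, |hat v k e| ≤ 1) → -κ ≤ CC s w (hat v k)) :
    ∀ z, -(κ * ∑ e, |(hat v z e : ℝ)|) ≤ FF s w (hat v z) := by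
  refine conf_ind hv _ ?_ ?_
  · simp [FF, hat_zero]
  · intro z k hk hk1 hke hz
    rw [FF_split s w hk1 hke]
    have h1 := h k hk1
    rw [CC_elem s w hk1] at h1
    have h2 : ∑ e, |(hat v z e : ℝ)| = ∑ e, |(hat v (z - k) e : ℝ)| + ∑ e, |(hat v k e : ℝ)| := by
      rw [← sum_add_distrib]
      exact sum_congr rfl fun e _ => abs_split hk1 hke e
    have h3 : (1 : ℝ) ≤ ∑ e, |(hat v k e : ℝ)| := by
      have := one_le_sum hv hk
      exact_mod_cast this
    have h4 := mul_le_mul_of_nonneg_left h3 hκ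
    rw [h2, mul_add]
    linarith

theorem FF_nonneg {v : ι → Fin g → ℤ} {S : Finset ι} (hv : Unim v S) (s w : ι → ℝ)
    (hmin : ∀ z, 0 ≤ CC s w (hat v z)) (z : Fin g → ℤ) : 0 ≤ FF s w (hat v z) := by
  have := claim1 hv s w 0 le_rfl (fun k _ => by simpa using hmin k) z
  simpa using this

theorem claim2 {v : ι → Fin g → ℤ} {S : Finset ι} (hv : Unim v S) (s w : ι → ℝ) (κ : ℝ)
    (hmin : ∀ z, 0 ≤ CC s w (hat v z)) :
    ∀ z, FF s w (hat v z) ≤ κ → ∀ e, hat v z e ≠ 0 → ∃ k : Fin g → ℤ,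
      (∀ e, |hat v k e| ≤ 1) ∧ CC s w (hat v k) ≤ κ ∧ 0 < hat v k e * hat v z e := by
  refine conf_ind hv _ ?_ ?_
  · intro _ e he
    exact absurd (hat_zero v e) he
  · intro z k hk hk1 hke ih hz e he
    rw [FF_split s w hk1 hke] at hz
    have h1 := FF_nonneg hv s w hmin (z - k)
    have h2 := FF_nonneg hv s w hmin k
    by_cases hk0 : hat v k e = 0
    · have h3 : hat v (z - k) e = hat v z e := by rw [hat_sub, hk0, sub_zero]
      have := ih (by linarith) e (by rw [h3]; exact he)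
      rwa [h3] at this
    · exact ⟨k, hk1, by rw [CC_elem s w hk1]; linarith, hke e hk0⟩

theorem CC_shift (s w : ι → ℝ) (a b : ι → ℤ) :
    CC s (fun e => w e + b e) a = CC s w (fun e => a e + b e) - CC s w b := by
  unfold CC
  rw [← sum_sub_distrib]
  refine sum_congr rfl fun e _ => ?_
  push_cast
  ring

theorem claim3 {v : ι → Fin g → ℤ} {S : Finset ι} (hv : Unim v S) (s w : ι → ℝ) (t κ : ℝ)
    (hs : ∀ e, 0 ≤ s e) (hκ : 0 ≤ κ) (hκt : (2 * Fintype.card ι + 1) * κ < 2 * t)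
    (hmin : ∀ z, 0 ≤ CC s w (hat v z)) (k k' : Fin g → ℤ)
    (hk : ∀ e, |hat v k e| ≤ 1) (hk' : ∀ e, |hat v k' e| ≤ 1)
    (hc : CC s w (hat v k) ≤ κ) (hc' : CC s w (hat v k') ≤ κ) (e : ι) (hte : t ≤ s e)
    (h1 : hat v k e = 1) (h2 : hat v k' e = -1) : False := by
  have hsh : ∀ j : Fin g → ℤ, CC s (fun e => w e + hat v k' e) (hat v j) =
      CC s w (hat v (j + k')) - CC s w (hat v k') := by
    intro j
    rw [CC_shift]
    congr 2
    funext e
    rw [hat_add]
  have h3 := claim1 hv s (fun e => w e + hat v k' e) κ hκ (fun j _ => by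
    rw [hsh]
    have := hmin (j + k')
    linarith) (k - k')
  have h4 : ∑ e, |(hat v (k - k') e : ℝ)| ≤ 2 * Fintype.card ι := by
    calc ∑ e, |(hat v (k - k') e : ℝ)| ≤ ∑ _e : ι, (2 : ℝ) := by
          refine sum_le_sum fun e _ => ?_
          rw [hat_sub]
          have h5 := hk e
          have h6 := hk' e
          have h7 : |hat v k e - hat v k' e| ≤ 2 := by
            rw [abs_le] at h5 h6 ⊢
            omega
          exact_mod_cast h7
      _ = 2 * Fintype.card ι := by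
          rw [sum_const, card_univ, nsmul_eq_mul]
          ring
  have h5 := hsh (k - k')
  rw [sub_add_cancel, CC_eq] at h5
  have h6 : 2 * t ≤ ∑ e, s e * ((hat v (k - k') e : ℝ) ^ 2 - |(hat v (k - k') e : ℝ)|) := by
    have h7 : ∀ e, 0 ≤ s e * ((hat v (k - k') e : ℝ) ^ 2 - |(hat v (k - k') e : ℝ)|) := by
      intro e
      have := abs_le_sq (hat v (k - k') e)
      exact mul_nonneg (hs e) (by linarith)
    refine le_trans ?_ (single_le_sum (f := fun e => s e * ((hat v (k - k') e : ℝ) ^ 2 -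
      |(hat v (k - k') e : ℝ)|)) (fun e _ => h7 e) (mem_univ e))
    simp only [hat_sub, h1, h2]
    norm_num
    linarith
  have h7 := hmin k'
  have h8 := mul_le_mul_of_nonneg_left h4 hκ
  nlinarith

/-- a set of elements which isolates the centre -/
theorem isol {v : ι → Fin g → ℤ} {S : Finset ι} (hv : Unim v S) (d : ℕ)
    (hfas : ∀ σ : ι → ℤ, (∀ e, σ e = 1 ∨ σ e = -1) → ∃ D : Finset ι, D ⊆ S ∧ D.card ≤ d ∧
      ∀ k : Fin g → ℤ, k ≠ 0 → (∀ e ∈ S, hat v k e = 0 ∨ hat v k e = σ e) →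
        ∃ e ∈ D, hat v k e ≠ 0)
    (s w : ι → ℝ) (t κ : ℝ) (hs : ∀ e, 0 ≤ s e) (ht : ∀ e ∈ S, t ≤ s e)
    (hκ : 0 ≤ κ) (hκt : (2 * Fintype.card ι + 1) * κ < 2 * t)
    (hmin : ∀ z, 0 ≤ CC s w (hat v z)) :
    ∃ (σ : ι → ℤ) (D : Finset ι), (∀ e, σ e = 1 ∨ σ e = -1) ∧ D.card ≤ d ∧
      ∀ z : Fin g → ℤ, z ≠ 0 → (∀ e ∈ D, σ e * hat v z e ≠ 1) → κ ≤ CC s w (hat v z) := by
  classical
  let σ : ι → ℤ := fun e => if ∃ k : Fin g → ℤ, (∀ e, |hat v k e| ≤ 1) ∧
    CC s w (hat v k) ≤ κ ∧ hat v k e = -1 then -1 else 1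
  have hσ : ∀ e, σ e = 1 ∨ σ e = -1 := by
    intro e
    simp only [σ]
    split_ifs
    · exact Or.inr rfl
    · exact Or.inl rfl
  obtain ⟨D, hDS, hD, hDk⟩ := hfas σ hσ
  refine ⟨σ, D, hσ, hD, fun z hz hzD => ?_⟩
  by_contra hcon
  push Not at hcon
  have hpos : ∀ e, 0 ≤ s e * ((hat v z e : ℝ) ^ 2 - |(hat v z e : ℝ)|) := by
    intro e
    have := abs_le_sq (hat v z e)
    exact mul_nonneg (hs e) (by linarith)
  have hFF := FF_nonneg hv s w hmin z
  have hCC := CC_eq s w (hat v z)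
  have hsum0 : 0 ≤ ∑ e, s e * ((hat v z e : ℝ) ^ 2 - |(hat v z e : ℝ)|) :=
    sum_nonneg fun e _ => hpos e
  have hFκ : FF s w (hat v z) ≤ κ := by linarith
  have hκ2 : κ < 2 * t := by
    have : (0 : ℝ) ≤ Fintype.card ι := Nat.cast_nonneg _
    nlinarith
  -- the entries in `S` are small
  have hz1 : ∀ e ∈ S, |hat v z e| ≤ 1 := by
    intro e he
    by_contra h1
    push Not at h1
    have h2 : (2 : ℝ) ≤ |(hat v z e : ℝ)| := by
      have : (2 : ℤ) ≤ |hat v z e| := by omega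
      exact_mod_cast this
    have h3 : s e * ((hat v z e : ℝ) ^ 2 - |(hat v z e : ℝ)|) ≤
        ∑ e, s e * ((hat v z e : ℝ) ^ 2 - |(hat v z e : ℝ)|) :=
      single_le_sum (f := fun e => s e * ((hat v z e : ℝ) ^ 2 - |(hat v z e : ℝ)|))
        (fun e _ => hpos e) (mem_univ e)
    have h4 : 2 ≤ (hat v z e : ℝ) ^ 2 - |(hat v z e : ℝ)| := by
      rw [← sq_abs]
      nlinarith
    have h5 := ht e he
    have h6 : t * 2 ≤ s e * ((hat v z e : ℝ) ^ 2 - |(hat v z e : ℝ)|) :=
      mul_le_mul h5 h4 (by norm_num) (hs e)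
    linarith
  -- the entries are determined by the signs
  have hzσ : ∀ e ∈ S, hat v z e = 0 ∨ hat v z e = σ e := by
    intro e he
    by_cases h0 : hat v z e = 0
    · exact Or.inl h0
    right
    obtain ⟨k, hk1, hkc, hke⟩ := claim2 hv s w κ hmin z hFκ e h0
    have h1 := hz1 e he
    have h2 := hk1 e
    rw [abs_le] at h1 h2
    have h3 : hat v z e = 1 ∨ hat v z e = -1 := by omega
    rcases h3 with h3 | h3
    · have h4 : hat v k e = 1 := by
        rw [h3] at hke
        omega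
      rw [h3]
      simp only [σ]
      rw [if_neg]
      rintro ⟨k', hk1', hkc', hke'⟩
      exact claim3 hv s w t κ hs hκ hκt hmin k k' hk1 hk1' hkc hkc' e (ht e he) h4 hke'
    · have h4 : hat v k e = -1 := by
        rw [h3] at hke
        omega
      rw [h3]
      simp only [σ]
      rw [if_pos ⟨k, hk1, hkc, h4⟩]
  obtain ⟨e, heD, he0⟩ := hDk z hz hzσ
  apply hzD e heD
  rcases hzσ e (hDS heD) with h1 | h1
  · exact absurd h1 he0
  · rw [h1]
    rcases hσ e with h2 | h2 <;> rw [h2] <;> norm_num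

/-- the centre is close to the nearest point -/
theorem hat_bound {v : ι → Fin g → ℤ} {S : Finset ι} (hv : Unim v S) (s w : ι → ℝ) (ρ : ℝ)
    (hρ : 0 ≤ ρ) (hs : ∀ e, 0 ≤ s e) (hsS : ∀ e ∈ S, 0 < s e)
    (hmin : ∀ z, 0 ≤ CC s w (hat v z)) (z : Fin g → ℤ)
    (hz : ∀ e, |w e - hat v z e| ≤ ρ) (e : ι) :
    |w e| ≤ Fintype.card ι * (Fintype.card ι * (ρ + 1)) + ρ := by
  classical
  obtain ⟨m, hm⟩ : ∃ m : ℕ, m = Fintype.card ι := ⟨_, rfl⟩
  rw [← hm]
  set Lo : Finset ι := Finset.univ.filter fun e => |(hat v z e : ℝ)| ≤ ρ + 1 with hLo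
  -- every conformal elementary vector meets `Lo`
  have h1 : ∀ k : Fin g → ℤ, k ≠ 0 → (∀ e, |hat v k e| ≤ 1) →
      (∀ e, hat v k e ≠ 0 → 0 < hat v k e * hat v z e) → ∃ e ∈ Lo, hat v k e ≠ 0 := by
    intro k hk hk1 hke
    by_contra hcon
    push Not at hcon
    have h2 := hmin (-k)
    have h3 : CC s w (hat v (-k)) < 0 := by
      have hterm : ∀ e, s e * ((hat v (-k) e : ℝ) ^ 2 + 2 * (hat v (-k) e) * w e) ≤ 0 ∧
          (hat v k e ≠ 0 → 0 < s e →
            s e * ((hat v (-k) e : ℝ) ^ 2 + 2 * (hat v (-k) e) * w e) < 0) := by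
        intro e
        rw [hat_neg]
        by_cases h0 : hat v k e = 0
        · simp [h0]
        have hL : e ∉ Lo := fun he => h0 (hcon e he)
        rw [hLo, Finset.mem_filter] at hL
        have hL' : ρ + 1 < |(hat v z e : ℝ)| := by
          by_contra hcon2
          exact hL ⟨mem_univ _, not_lt.1 hcon2⟩
        have h4 := hk1 e
        rw [abs_le] at h4
        have h5 : hat v k e = 1 ∨ hat v k e = -1 := by omega
        have h6 := (abs_le.1 (hz e))
        have h7 : (hat v k e : ℝ) * w e > 1 := by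
          rcases h5 with h5 | h5
          · have h8 := hke e h0
            rw [h5] at h8 ⊢
            have h9 : 0 < (hat v z e : ℝ) := by
              have : 0 < hat v z e := by linarith
              exact_mod_cast this
            rw [abs_of_pos h9] at hL'
            push_cast
            linarith [h6.1]
          · have h8 := hke e h0
            rw [h5] at h8 ⊢
            have h9 : (hat v z e : ℝ) < 0 := by
              have : hat v z e < 0 := by linarith
              exact_mod_cast this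
            rw [abs_of_neg h9] at hL'
            push_cast
            linarith [h6.2]
        have h8 : ((-hat v k e : ℤ) : ℝ) ^ 2 = 1 := by
          rcases h5 with h5 | h5 <;> rw [h5] <;> norm_num
        have h9 : ((-hat v k e : ℤ) : ℝ) ^ 2 + 2 * ((-hat v k e : ℤ) : ℝ) * w e < 0 := by
          rw [h8]
          push_cast
          linarith
        refine ⟨mul_nonpos_of_nonneg_of_nonpos (hs e) h9.le, fun _ h10 => ?_⟩
        exact mul_neg_of_pos_of_neg h10 h9
      obtain ⟨e₀, he₀S, he₀⟩ : ∃ e ∈ S, hat v k e ≠ 0 := by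
        by_contra hcon2
        push Not at hcon2
        exact hk (hv.injS hcon2)
      exact sum_neg' (fun e _ => (hterm e).1) ⟨e₀, mem_univ _, (hterm e₀).2 he₀ (hsS e₀ he₀S)⟩
    linarith
  -- conformal induction
  have h2 : ∀ z' : Fin g → ℤ, (∀ e, hat v z' e ≠ 0 → 0 < hat v z' e * hat v z e) →
      ∑ e, |(hat v z' e : ℝ)| ≤ m * ∑ e ∈ Lo, |(hat v z' e : ℝ)| := by
    refine conf_ind hv _ ?_ ?_
    · intro _
      simp [hat_zero]
    · intro z' k hk hk1 hke ih hz'
      have hkz : ∀ e, hat v k e ≠ 0 → 0 < hat v k e * hat v z e := by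
        intro e he
        have h3 := hke e he
        have h4 : hat v z' e ≠ 0 := by
          intro h; rw [h, mul_zero] at h3; exact lt_irrefl _ h3
        have h5 := hz' e h4
        have h6 : 0 < (hat v k e * hat v z' e) * (hat v z' e * hat v z e) := mul_pos h3 h5
        have h7 : (hat v k e * hat v z' e) * (hat v z' e * hat v z e) =
            (hat v z' e) ^ 2 * (hat v k e * hat v z e) := by ring
        rw [h7] at h6
        exact (mul_pos_iff_of_pos_left (by positivity)).1 h6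
      have ih' := ih (by
        intro e he
        have h3 := hk1 e
        rw [abs_le] at h3
        rw [hat_sub] at he ⊢
        by_cases h0 : hat v k e = 0
        · rw [h0, sub_zero] at he ⊢
          exact hz' e he
        · have h4 := hke e h0
          have h5 := hkz e h0
          have h6 : hat v k e = 1 ∨ hat v k e = -1 := by omega
          rcases h6 with h6 | h6
          · rw [h6] at h4 h5 he ⊢
            have h7 : 0 < hat v z' e - 1 := by omega
            have h8 : 0 < hat v z e := by omega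
            exact mul_pos h7 h8
          · rw [h6] at h4 h5 he ⊢
            have h7 : hat v z' e - -1 < 0 := by omega
            have h8 : hat v z e < 0 := by omega
            exact mul_pos_of_neg_of_neg h7 h8)
      obtain ⟨e₀, he₀, hne⟩ := h1 k hk hk1 hkz
      have h3 : (1 : ℝ) ≤ ∑ e ∈ Lo, |(hat v k e : ℝ)| := by
        have h4 : (1 : ℝ) ≤ |(hat v k e₀ : ℝ)| := by
          have : 1 ≤ |hat v k e₀| := Int.one_le_abs hne
          exact_mod_cast this
        exact h4.trans (single_le_sum (f := fun e => |(hat v k e : ℝ)|)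
          (fun _ _ => abs_nonneg _) he₀)
      have h4 : ∑ e, |(hat v k e : ℝ)| ≤ m := by
        calc ∑ e, |(hat v k e : ℝ)| ≤ ∑ _e : ι, (1 : ℝ) := by
              refine sum_le_sum fun e _ => ?_
              exact_mod_cast hk1 e
          _ = m := by rw [hm]; simp
      have h5 : ∑ e, |(hat v z' e : ℝ)| = ∑ e, |(hat v (z' - k) e : ℝ)| + ∑ e, |(hat v k e : ℝ)| := by
        rw [← sum_add_distrib]
        exact sum_congr rfl fun e _ => abs_split hk1 hke e
      have h6 : ∑ e ∈ Lo, |(hat v z' e : ℝ)| =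
          ∑ e ∈ Lo, |(hat v (z' - k) e : ℝ)| + ∑ e ∈ Lo, |(hat v k e : ℝ)| := by
        rw [← sum_add_distrib]
        exact sum_congr rfl fun e _ => abs_split hk1 hke e
      have h7 : (m : ℝ) ≤ m * ∑ e ∈ Lo, |(hat v k e : ℝ)| := by
        have : (0 : ℝ) ≤ m := Nat.cast_nonneg m
        nlinarith
      rw [h5, h6, mul_add]
      linarith
  have h3 := h2 z (fun e he => by
    have : 0 < (hat v z e) ^ 2 := by positivity
    nlinarith)
  have h4 : ∑ e ∈ Lo, |(hat v z e : ℝ)| ≤ m * (ρ + 1) := by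
    calc ∑ e ∈ Lo, |(hat v z e : ℝ)| ≤ ∑ _e ∈ Lo, (ρ + 1) :=
          sum_le_sum fun e he => (Finset.mem_filter.1 he).2
      _ = Lo.card * (ρ + 1) := by rw [sum_const, nsmul_eq_mul]
      _ ≤ m * (ρ + 1) := by
          refine mul_le_mul_of_nonneg_right ?_ (by linarith)
          have : Lo.card ≤ m := by rw [hm]; exact Finset.card_le_univ Lo
          exact_mod_cast this
  have h5 : |(hat v z e : ℝ)| ≤ ∑ e, |(hat v z e : ℝ)| :=
    single_le_sum (f := fun e => |(hat v z e : ℝ)|) (fun _ _ => abs_nonneg _) (mem_univ e)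
  have h6 : |w e| ≤ |w e - hat v z e| + |(hat v z e : ℝ)| := by
    have := abs_add_le (w e - hat v z e) (hat v z e)
    rwa [sub_add_cancel] at this
  have h7 : (m : ℝ) * ∑ e ∈ Lo, |(hat v z e : ℝ)| ≤ m * (m * (ρ + 1)) :=
    mul_le_mul_of_nonneg_left h4 (Nat.cast_nonneg m)
  linarith [hz e]

end Pool.TCD
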