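import Pool.Agent.Work.MP_29fd3c_cd.PartB

/-!
# Unimodular systems: the theorem
-/

set_option autoImplicit false

namespace Pool.TCD

open Finset Complex Matrix Pool.TH Pool.TK

variable {g : ℕ} {ι : Type} [Fintype ι]

/-- the Gram matrix of a system with weights -/
def gram (v : ι → Fin g → ℤ) (s : ι → ℝ) : Matrix (Fin g) (Fin g) ℝ :=
  Matrix.of fun i j => ∑ e, s e * (v e i : ℝ) * (v e j : ℝ)

theorem dot_gram (v : ι → Fin g → ℤ) (s : ι → ℝ) (a b : Fin g → ℝ) :
    a ⬝ᵥ (gram v s *ᵥ b) = ∑ e, s e * (rhat v a e * rhat v b e) := by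
  have h1 : a ⬝ᵥ (gram v s *ᵥ b) =
      ∑ i, ∑ j, ∑ e, s e * ((v e i : ℝ) * a i * ((v e j : ℝ) * b j)) := by
    simp only [dotProduct, Matrix.mulVec, gram, Matrix.of_apply, mul_sum, sum_mul]
    exact sum_congr rfl fun i _ => sum_congr rfl fun j _ => sum_congr rfl fun e _ => by ring
  have h2 : ∀ e, s e * (rhat v a e * rhat v b e) =
      ∑ i, ∑ j, s e * ((v e i : ℝ) * a i * ((v e j : ℝ) * b j)) := by
    intro e
    unfold rhat
    rw [Finset.sum_mul_sum, mul_sum]
    exact sum_congr rfl fun i _ => by rw [mul_sum]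
  simp only [h2]
  rw [h1]
  symm
  rw [Finset.sum_comm]
  exact sum_congr rfl fun i _ => Finset.sum_comm

theorem gram_symm (v : ι → Fin g → ℤ) (s : ι → ℝ) :
    (gram v s).transpose = gram v s := by
  ext i j
  simp only [gram, Matrix.transpose_apply, Matrix.of_apply]
  exact sum_congr rfl fun e _ => by ring

theorem gram_posDef {v : ι → Fin g → ℤ} {S : Finset ι} (hv : Unim v S) {s : ι → ℝ}
    (hs : ∀ e, 0 ≤ s e) (hsS : ∀ e ∈ S, 0 < s e) : (gram v s).PosDef := by
  refine Matrix.PosDef.of_dotProduct_mulVec_pos ?_ ?_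
  · unfold Matrix.IsHermitian
    rw [Matrix.conjTranspose_eq_transpose_of_trivial, gram_symm]
  · intro x hx
    rw [star_trivial, dot_gram]
    obtain ⟨e₀, heS, he₀⟩ : ∃ e ∈ S, rhat v x e ≠ 0 := by
      by_contra hcon
      push Not at hcon
      exact hx (hv.inj x hcon)
    refine sum_pos' (fun e _ => mul_nonneg (hs e) (mul_self_nonneg _)) ⟨e₀, mem_univ _, ?_⟩
    exact mul_pos (hsS e₀ heS) (mul_self_pos.2 he₀)

theorem prod_mem (D : Finset ι) (l : ι → ℝ × (Fin g → ℝ)) :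
    (fun n : Fin g → ℤ => ∏ e ∈ D, aff (l e) n) ∈ Poly ℝ g D.card := by
  classical
  induction D using Finset.induction_on with
  | empty => simpa using const_mem (g := g) (R := ℝ) 0 1
  | insert a D ha ih =>
    rw [Finset.card_insert_of_notMem ha]
    simp only [Finset.prod_insert ha]
    exact mul_aff ih (l a)

theorem rhat_le (v : ι → Fin g → ℤ) (y : Fin g → ℝ) (c : ℝ) (hc : 0 ≤ c)
    (hy : ∀ i, |y i| ≤ c) (e : ι) : |rhat v y e| ≤ (∑ e, ∑ i, |(v e i : ℝ)|) * c := by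
  have h1 : |rhat v y e| ≤ (∑ i, |(v e i : ℝ)|) * c := by
    unfold rhat
    refine (abs_sum_le_sum_abs _ _).trans ?_
    rw [sum_mul]
    refine sum_le_sum fun i _ => ?_
    rw [abs_mul]
    exact mul_le_mul_of_nonneg_left (hy i) (abs_nonneg _)
  refine h1.trans (mul_le_mul_of_nonneg_right ?_ hc)
  exact single_le_sum (f := fun e => ∑ i, |(v e i : ℝ)|)
    (fun _ _ => sum_nonneg fun _ _ => abs_nonneg _) (mem_univ e)

/-- the theorem for unimodular systems -/
theorem matroidal (v : ι → Fin g → ℤ) (S : Finset ι) (hv : Unim v S) (d : ℕ)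
    (hfas : ∀ σ : ι → ℤ, (∀ e, σ e = 1 ∨ σ e = -1) → ∃ D : Finset ι, D ⊆ S ∧ D.card ≤ d ∧
      ∀ k : Fin g → ℤ, k ≠ 0 → (∀ e ∈ S, hat v k e = 0 ∨ hat v k e = σ e) →
        ∃ e ∈ D, hat v k e ≠ 0) :
    ∃ η : ℝ, 0 < η ∧ ∀ τ : Matrix (Fin g) (Fin g) ℂ, τ.transpose = τ →
      (τ.map Complex.im).PosDef →
      ∀ (t : ℝ) (s : ι → ℝ), 1 / η ≤ t → (∀ e, 0 ≤ s e) → (∀ e ∈ S, t ≤ s e) →
      (∀ i j, |(τ i j).im - ∑ e, s e * (v e i : ℝ) * (v e j : ℝ)| ≤ η * t) →
      ∀ z : Fin g → ℂ, ∃ k ≤ d, iteratedFDeriv ℂ k (theta τ) z ≠ 0 := by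
  classical
  -- constants
  obtain ⟨cA, hcA, hlow⟩ := POIX.exists_lower (gram v fun e => if e ∈ S then 1 else 0)
    (gram_posDef hv (fun e => by split_ifs <;> norm_num) (fun e he => by rw [if_pos he]; norm_num))
  have hlow' : ∀ y : Fin g → ℝ, cA * ∑ i, y i ^ 2 ≤ ∑ e ∈ S, (rhat v y e) ^ 2 := by
    intro y
    have h1 := hlow y
    rw [dot_self] at h1
    unfold qf at h1
    rw [dot_gram] at h1
    refine h1.trans (le_of_eq ?_)
    simp only [ite_mul, one_mul, zero_mul]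
    rw [Finset.sum_ite_mem, Finset.univ_inter]
    exact sum_congr rfl fun e _ => by ring
  obtain ⟨m, hm⟩ : ∃ m : ℕ, m = Fintype.card ι := ⟨_, rfl⟩
  obtain ⟨ρ, hρ⟩ : ∃ ρ : ℝ, ρ = ∑ e, ∑ i, |(v e i : ℝ)| := ⟨_, rfl⟩
  have hρ0 : 0 ≤ ρ := by rw [hρ]; positivity
  have hm0 : (0 : ℝ) ≤ m := Nat.cast_nonneg m
  have hg0 : (0 : ℝ) ≤ g := Nat.cast_nonneg g
  obtain ⟨W, hW⟩ : ∃ W : ℝ, W = m * (m * (ρ + 1)) + ρ := ⟨_, rfl⟩
  have hW0 : 0 ≤ W := by rw [hW]; positivity
  obtain ⟨R, hR⟩ : ∃ R : ℝ, R = 1 + m * W ^ 2 / cA := ⟨_, rfl⟩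
  have hR0 : 0 ≤ R := by rw [hR]; positivity
  obtain ⟨M, hM⟩ : ∃ M : ℝ, M = 1 + m * ρ := ⟨_, rfl⟩
  have hM0 : 0 ≤ M := by rw [hM]; positivity
  obtain ⟨K₀, hK₀, hcore⟩ := core g d M hM0
  obtain ⟨B₁, hB₁⟩ : ∃ B : ℝ, B = (g + 2 * (g * R)) / cA := ⟨_, rfl⟩
  have hB0 : 0 ≤ B₁ := by rw [hB₁]; positivity
  obtain ⟨L, hL⟩ : ∃ L : ℝ, L = K₀ * (1 + 1 / cA) := ⟨_, rfl⟩
  have hL0 : 0 < L := by rw [hL]; positivity
  obtain ⟨C, hC⟩ : ∃ C : ℝ, C = (m + 3) * (B₁ + L) := ⟨_, rfl⟩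
  have hC0 : 0 < C := by rw [hC]; positivity
  obtain ⟨η, hη⟩ : ∃ η : ℝ, η = 1 / ((2 * m + 2) * C + 1) := ⟨_, rfl⟩
  have hη0 : 0 < η := by rw [hη]; positivity
  have hηC : (2 * m + 2) * C * η ≤ 1 := by
    rw [hη, mul_one_div, div_le_one (by positivity)]
    linarith
  refine ⟨η, hη0, ?_⟩
  intro τ hτ hpos t s ht hs0 hst hclose z
  have ht0 : 0 < t := lt_of_lt_of_le (by positivity) ht
  have hηt : 1 ≤ η * t := by
    rw [div_le_iff₀ hη0] at ht
    linarith
  have hsS : ∀ e ∈ S, 0 < s e := fun e he => lt_of_lt_of_le ht0 (hst e he)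
  set P := τ.map Complex.im with hP
  have hPs : P.transpose = P := by
    rw [hP, ← Matrix.transpose_map, hτ]
  set E : Matrix (Fin g) (Fin g) ℝ := P - gram v s with hE
  have hEb : ∀ i j, |E i j| ≤ η * t := by
    intro i j
    have := hclose i j
    simpa [hE, hP, gram] using this
  have hPE : P = gram v s + E := by rw [hE]; abel
  -- the centre
  have hdet : IsUnit P.det := isUnit_iff_ne_zero.2 hpos.det_pos.ne'
  obtain ⟨x, hx⟩ : ∃ x : Fin g → ℝ, x = P⁻¹ *ᵥ (fun i => -(z i).im) := ⟨_, rfl⟩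
  have hPx : P *ᵥ x = fun i => -(z i).im := by
    rw [hx, Matrix.mulVec_mulVec, Matrix.mul_nonsing_inv _ hdet, Matrix.one_mulVec]
  have hzx : ∀ i, (z i).im = -(P *ᵥ x) i := by
    intro i
    rw [hPx]
    simp
  -- the nearest point
  obtain ⟨u, hu⟩ := exists_nearest (gram_posDef hv hs0 hsS) (gram_symm v s) x
  obtain ⟨w, hw⟩ : ∃ w : ι → ℝ, w = fun e => rhat v (zc u - x) e := ⟨_, rfl⟩
  have hcost : ∀ z' : Fin g → ℤ, qf (gram v s) (zc z') +
      2 * (zc z' ⬝ᵥ (gram v s *ᵥ (zc u - x))) = CC s w (hat v z') := by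
    intro z'
    unfold qf CC
    rw [dot_gram, dot_gram, mul_sum, ← sum_add_distrib]
    refine sum_congr rfl fun e _ => ?_
    rw [rhat_zc, hw]
    ring
  have hmin : ∀ z' : Fin g → ℤ, 0 ≤ CC s w (hat v z') := by
    intro z'
    rw [← hcost]
    have h1 := diff_eq (gram_symm v s) (z' + u) u x
    rw [add_sub_cancel_right] at h1
    rw [← h1]
    linarith [hu (z' + u)]
  -- `u - x` is bounded
  have hwW : ∀ e, |w e| ≤ W := by
    intro e
    rw [hW, hm]
    refine hat_bound hv s w ρ hρ0 hs0 hsS hmin (u - fun i => ⌊x i⌋) ?_ e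
    intro e
    have h1 : w e - hat v (u - fun i => ⌊x i⌋) e = rhat v (zc (fun i => ⌊x i⌋) - x) e := by
      rw [hw, ← rhat_zc, ← rhat_sub]
      congr 1
      rw [zc_sub]
      abel
    rw [h1]
    have := rhat_le v (zc (fun i => ⌊x i⌋) - x) 1 zero_le_one (fun i => by
      have h2 := Int.floor_le (x i)
      have h3 := Int.lt_floor_add_one (x i)
      rw [abs_le]
      simp only [Pi.sub_apply, zc]
      constructor <;> linarith) e
    rw [mul_one, ← hρ] at this
    exact this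
  have hux : ∀ i, |(zc u - x) i| ≤ R := by
    intro i
    have h1 := hlow' (zc u - x)
    have h2 : ∑ e ∈ S, (rhat v (zc u - x) e) ^ 2 ≤ m * W ^ 2 := by
      calc ∑ e ∈ S, (rhat v (zc u - x) e) ^ 2 ≤ ∑ e, (rhat v (zc u - x) e) ^ 2 :=
            sum_le_sum_of_subset_of_nonneg (Finset.subset_univ _) fun _ _ _ => sq_nonneg _
        _ ≤ ∑ _e : ι, W ^ 2 := by
            refine sum_le_sum fun e _ => ?_
            have h3 := hwW e
            rw [hw] at h3
            rw [← sq_abs]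
            exact pow_le_pow_left₀ (abs_nonneg _) h3 2
        _ = m * W ^ 2 := by rw [sum_const, card_univ, nsmul_eq_mul, hm]
    have h3 : ((zc u - x) i) ^ 2 ≤ ∑ i, ((zc u - x) i) ^ 2 :=
      single_le_sum (f := fun i => ((zc u - x) i) ^ 2) (fun _ _ => sq_nonneg _) (mem_univ i)
    have h4 : ∑ i, ((zc u - x) i) ^ 2 ≤ m * W ^ 2 / cA := by
      rw [le_div_iff₀ hcA]
      linarith
    have h5 : |(zc u - x) i| ≤ 1 + ((zc u - x) i) ^ 2 := by
      rw [← sq_abs]
      nlinarith [sq_nonneg (|(zc u - x) i| - 1), abs_nonneg ((zc u - x) i)]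
    rw [hR]
    linarith
  -- the isolating set
  obtain ⟨κ, hκ⟩ : ∃ κ : ℝ, κ = C * (η * t) := ⟨_, rfl⟩
  have hκ0 : 0 ≤ κ := by rw [hκ]; positivity
  have hκt1 : (2 * m + 2) * κ ≤ t := by
    have := mul_le_mul_of_nonneg_right hηC ht0.le
    rw [hκ]
    linarith
  have hκt : (2 * m + 1) * κ < 2 * t := by nlinarith
  have hκt2 : κ ≤ t := by nlinarith
  obtain ⟨σ, D, hσ, hD, hDz⟩ := isol hv d hfas s w t κ hs0 hst hκ0 (by rw [← hm]; exact hκt) hmin
  refine hcore τ hτ hpos z x hzx u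
    (fun n => ∏ e ∈ D, aff ((1 + (σ e : ℝ) * hat v u e, fun i => -((σ e : ℝ) * v e i)) :
      ℝ × (Fin g → ℝ)) n) ?_ ?_ ?_ ?_
  · exact poly_mono hD (prod_mem D _)
  · refine Finset.prod_eq_one fun e _ => ?_
    have h1 : ∑ i, -((σ e : ℝ) * v e i) * (u i : ℝ) = -((σ e : ℝ) * hat v u e) := by
      rw [hat]
      push_cast
      rw [mul_sum, ← sum_neg_distrib]
      exact sum_congr rfl fun i _ => by ring
    simp only [aff, h1]
    ring
  all_goals
    have haff : ∀ (n : Fin g → ℤ) (e : ι),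
        aff ((1 + (σ e : ℝ) * hat v u e, fun i => -((σ e : ℝ) * v e i)) :
          ℝ × (Fin g → ℝ)) n = 1 - ((σ e * hat v (n - u) e : ℤ) : ℝ) := by
      intro n e
      have h1 : ∑ i, -((σ e : ℝ) * v e i) * (n i : ℝ) = -((σ e : ℝ) * hat v n e) := by
        rw [hat]
        push_cast
        rw [mul_sum, ← sum_neg_distrib]
        exact sum_congr rfl fun i _ => by ring
      simp only [aff, h1, hat_sub]
      push_cast
      ring
  · intro n
    have hN := N1_nonneg (n - u)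
    have h1 : ∀ e ∈ D, |aff ((1 + (σ e : ℝ) * hat v u e, fun i => -((σ e : ℝ) * v e i)) :
        ℝ × (Fin g → ℝ)) n| ≤ Real.exp (ρ * N1 (n - u)) := by
      intro e _
      rw [haff]
      have h2 : |(hat v (n - u) e : ℝ)| ≤ ρ * N1 (n - u) := by
        rw [← rhat_zc, hρ]
        refine rhat_le v _ _ hN (fun i => ?_) e
        exact single_le_sum (f := fun i => |(((n - u) i : ℤ) : ℝ)|) (fun _ _ => abs_nonneg _)
          (mem_univ i)
      have h3 : |((σ e * hat v (n - u) e : ℤ) : ℝ)| = |(hat v (n - u) e : ℝ)| := by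
        rcases hσ e with h | h <;> rw [h] <;> simp
      have h4 := Real.add_one_le_exp (ρ * N1 (n - u))
      have h5 : |1 - ((σ e * hat v (n - u) e : ℤ) : ℝ)| ≤
          1 + |((σ e * hat v (n - u) e : ℤ) : ℝ)| := by
        have := abs_sub (1 : ℝ) ((σ e * hat v (n - u) e : ℤ) : ℝ)
        rwa [abs_one] at this
      linarith
    rw [Finset.abs_prod]
    calc ∏ e ∈ D, |aff ((1 + (σ e : ℝ) * hat v u e, fun i => -((σ e : ℝ) * v e i)) :
          ℝ × (Fin g → ℝ)) n| ≤ ∏ _e ∈ D, Real.exp (ρ * N1 (n - u)) :=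
          prod_le_prod (fun _ _ => abs_nonneg _) h1
      _ = Real.exp (D.card * (ρ * N1 (n - u))) := by rw [prod_const, ← Real.exp_nat_mul]
      _ ≤ Real.exp (M * N1 (n - u)) := by
          refine Real.exp_le_exp.2 ?_
          have h2 : (D.card : ℝ) ≤ m := by
            have : D.card ≤ m := by rw [hm]; exact Finset.card_le_univ D
            exact_mod_cast this
          have h3 : (D.card : ℝ) * (ρ * N1 (n - u)) ≤ m * (ρ * N1 (n - u)) :=
            mul_le_mul_of_nonneg_right h2 (by positivity)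
          rw [hM]
          linarith
      _ = 1 * Real.exp (M * N1 (n - u)) := (one_mul _).symm
      _ ≤ M * Real.exp (M * N1 (n - u)) := by
          refine mul_le_mul_of_nonneg_right ?_ (Real.exp_pos _).le
          rw [hM]
          have : 0 ≤ m * ρ := by positivity
          linarith
  · intro n hn hfn
    obtain ⟨z', hz'⟩ : ∃ z', z' = n - u := ⟨_, rfl⟩
    have hz0 : z' ≠ 0 := by rw [hz']; exact sub_ne_zero.2 hn
    have h1 : κ ≤ CC s w (hat v z') := by
      refine hDz z' hz0 fun e he h2 => ?_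
      apply hfn
      refine Finset.prod_eq_zero he ?_
      rw [haff, ← hz', h2]
      norm_num
    rw [diff_eq hPs, ← hz']
    have h2 : qf P (zc z') = qf (gram v s) (zc z') + qf E (zc z') := by
      rw [hPE]
      unfold qf
      rw [Matrix.add_mulVec, dotProduct_add]
    have h3 : zc z' ⬝ᵥ (P *ᵥ (zc u - x)) = zc z' ⬝ᵥ (gram v s *ᵥ (zc u - x)) +
        zc z' ⬝ᵥ (E *ᵥ (zc u - x)) := by
      rw [hPE, Matrix.add_mulVec, dotProduct_add]
    have h4 := hcost z'
    have h5 : |qf E (zc z')| ≤ (η * t) * g * ∑ i, (z' i : ℝ) ^ 2 :=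
      qf_abs_le (by positivity) hEb z'
    have h6 : |zc z' ⬝ᵥ (E *ᵥ (zc u - x))| ≤ ((η * t) * g * R) * N1 z' :=
      dot_abs_le z' _ fun i => mulVec_abs_le (by positivity) hEb _ hux i
    have h7 := N1_le_sq z'
    have h8 := N1_nonneg z'
    -- growth
    obtain ⟨Q, hQ⟩ : ∃ Q : ℝ, Q = ∑ e ∈ S, (hat v z' e : ℝ) ^ 2 := ⟨_, rfl⟩
    have hQ0 : 0 ≤ Q := by rw [hQ]; positivity
    obtain ⟨Z, hZ⟩ : ∃ Z : ℝ, Z = ∑ i, (z' i : ℝ) ^ 2 := ⟨_, rfl⟩
    have hZ0 : 0 ≤ Z := by rw [hZ]; positivity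
    rw [← hZ] at h5 h7
    have hZQ : cA * Z ≤ Q := by
      have := hlow' (zc z')
      simp only [rhat_zc] at this
      rw [hZ, hQ]
      exact this
    have hgrow : (t / 2) * (Q - m) ≤ CC s w (hat v z') := by
      rw [CC_eq]
      have h9 := FF_nonneg hv s w hmin z'
      have h10 : (t / 2) * (Q - m) ≤
          ∑ e, s e * ((hat v z' e : ℝ) ^ 2 - |(hat v z' e : ℝ)|) := by
        have e1 : (t / 2) * (Q - S.card) = ∑ e ∈ S, (t / 2) * ((hat v z' e : ℝ) ^ 2 - 1) := by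
          rw [← mul_sum, sum_sub_distrib, hQ]
          simp
        have e2 : (t / 2) * (Q - m) ≤ (t / 2) * (Q - S.card) := by
          refine mul_le_mul_of_nonneg_left ?_ (by positivity)
          have h0 : S.card ≤ m := by rw [hm]; exact Finset.card_le_univ S
          have h0' : (S.card : ℝ) ≤ m := by exact_mod_cast h0
          linarith
        refine e2.trans ?_
        rw [e1]
        refine le_trans ?_ (sum_le_sum_of_subset_of_nonneg (Finset.subset_univ S)
          fun e _ _ => mul_nonneg (hs0 e) (by linarith [abs_le_sq (hat v z' e)]))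
        refine sum_le_sum fun e he => ?_
        have h11 := abs_le_sq (hat v z' e)
        have h12 : ((hat v z' e : ℝ) ^ 2 - 1) / 2 ≤ (hat v z' e : ℝ) ^ 2 - |(hat v z' e : ℝ)| := by
          rw [← sq_abs]
          nlinarith [sq_nonneg (|(hat v z' e : ℝ)| - 1)]
        have h13 := hst e he
        calc t / 2 * ((hat v z' e : ℝ) ^ 2 - 1) = t * (((hat v z' e : ℝ) ^ 2 - 1) / 2) := by ring
          _ ≤ t * ((hat v z' e : ℝ) ^ 2 - |(hat v z' e : ℝ)|) :=
              mul_le_mul_of_nonneg_left h12 ht0.le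
          _ ≤ s e * ((hat v z' e : ℝ) ^ 2 - |(hat v z' e : ℝ)|) :=
              mul_le_mul_of_nonneg_right h13 (by linarith)
      linarith
    have hcomb : κ * (1 + Q) ≤ (m + 3) * CC s w (hat v z') := by
      rcases le_total Q m with hQm | hQm
      · have h9 : κ * (1 + Q) ≤ κ * (m + 3) := mul_le_mul_of_nonneg_left (by linarith) hκ0
        have h10 : (m + 3) * κ ≤ (m + 3) * CC s w (hat v z') :=
          mul_le_mul_of_nonneg_left h1 (by linarith)
        linarith
      · have h9 : (m + 1) * κ ≤ (m + 1) * CC s w (hat v z') :=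
          mul_le_mul_of_nonneg_left h1 (by linarith)
        have h10 : κ * (Q - m) ≤ t * (Q - m) :=
          mul_le_mul_of_nonneg_right hκt2 (by linarith)
        nlinarith
    have hm3 : (0 : ℝ) < m + 3 := by linarith
    have hCC : (B₁ + L) * (η * t) * (1 + Q) ≤ CC s w (hat v z') := by
      have h9 : κ * (1 + Q) = (m + 3) * ((B₁ + L) * (η * t) * (1 + Q)) := by
        rw [hκ, hC]
        ring
      rw [h9] at hcomb
      exact le_of_mul_le_mul_left hcomb hm3
    have h9 := (abs_le.1 h5).1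
    have h10 := (abs_le.1 h6).1
    have h11 : (η * t * g * R) * N1 z' ≤ (η * t * g * R) * Z :=
      mul_le_mul_of_nonneg_left h7 (by positivity)
    have h12 : (η * t) * ((g + 2 * (g * R)) * Z) ≤ (η * t) * (B₁ * Q) := by
      refine mul_le_mul_of_nonneg_left ?_ (by positivity)
      rw [hB₁, div_mul_eq_mul_div, le_div_iff₀ hcA]
      have := mul_le_mul_of_nonneg_left hZQ (show 0 ≤ (g : ℝ) + 2 * (g * R) by positivity)
      linarith
    have h13 : L * (1 + Q) ≤ L * (η * t) * (1 + Q) := by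
      refine mul_le_mul_of_nonneg_right ?_ (by linarith)
      have := mul_le_mul_of_nonneg_left hηt hL0.le
      linarith
    have h14 : K₀ * (1 + N1 z') ≤ L * (1 + Q) := by
      have h15 : N1 z' ≤ Q / cA := by
        refine h7.trans ?_
        rw [le_div_iff₀ hcA]
        linarith
      have h16 : 1 + Q / cA ≤ (1 + 1 / cA) * (1 + Q) := by
        have : (0 : ℝ) ≤ 1 / cA := by positivity
        have e1 : Q / cA = 1 / cA * Q := by ring
        rw [e1]
        nlinarith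
      calc K₀ * (1 + N1 z') ≤ K₀ * ((1 + 1 / cA) * (1 + Q)) :=
            mul_le_mul_of_nonneg_left (by linarith) hK₀.le
        _ = L * (1 + Q) := by rw [hL]; ring
    have h17 : B₁ * (η * t) * Q ≤ B₁ * (η * t) * (1 + Q) := by
      have : 0 ≤ B₁ * (η * t) := by positivity
      linarith
    rw [h2, h3]
    linarith

end Pool.TCD
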