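import Pool.Agent.Work.MP_29fd3c_cd.PartA2

/-!
# The 2-adic bound
-/

set_option autoImplicit false

namespace Pool.TCD

open Finset Complex Matrix Pool.TH Pool.TK

variable {g : ℕ}

theorem rm_one (d : ℕ) (F : Finset (Fin g → ℤ)) (hF : F.card ≤ 1) (φ : (Fin g → ℤ) → ℤ) :
    ∃ P ∈ Poly ℤ g d, ∀ a ∈ F, (2 : ℤ) ∣ P a - φ a := by
  rcases F.eq_empty_or_nonempty with rfl | ⟨a, ha⟩
  · exact ⟨0, Submodule.zero_mem _, by simp⟩
  · refine ⟨fun _ => φ a, const_mem d _, fun b hb => ?_⟩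
    have := Finset.card_le_one.1 hF a ha b hb
    subst this
    simp

theorem rm_lemma (T : Finset (Fin g)) : ∀ (d : ℕ) (F : Finset (Fin g → ℤ)),
    (∀ a ∈ F, ∀ b ∈ F, (∀ i ∈ T, (2 : ℤ) ∣ a i - b i) → a = b) → F.card < 2 ^ (d + 1) →
    ∀ φ : (Fin g → ℤ) → ℤ, ∃ P ∈ Poly ℤ g d, ∀ a ∈ F, (2 : ℤ) ∣ P a - φ a := by
  classical
  induction T using Finset.induction_on with
  | empty =>
    intro d F hinj _ φ
    refine rm_one d F (Finset.card_le_one.2 fun a ha b hb => hinj a ha b hb (by simp)) φ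
  | insert i T hi ih =>
    intro d F hinj hcard φ
    rcases d with _ | e
    · exact rm_one 0 F (by simpa using Nat.lt_succ_iff.1 hcard) φ
    have hF0 : ∀ a ∈ F.filter (fun a => (2 : ℤ) ∣ a i), ∀ b ∈ F.filter (fun a => (2 : ℤ) ∣ a i),
        (∀ i ∈ T, (2 : ℤ) ∣ a i - b i) → a = b := by
      intro a ha b hb h
      rw [Finset.mem_filter] at ha hb
      refine hinj a ha.1 b hb.1 fun j hj => ?_
      rcases Finset.mem_insert.1 hj with rfl | hj
      · exact dvd_sub ha.2 hb.2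
      · exact h j hj
    have hF1 : ∀ a ∈ F.filter (fun a => ¬ (2 : ℤ) ∣ a i), ∀ b ∈ F.filter (fun a => ¬ (2 : ℤ) ∣ a i),
        (∀ i ∈ T, (2 : ℤ) ∣ a i - b i) → a = b := by
      intro a ha b hb h
      rw [Finset.mem_filter] at ha hb
      refine hinj a ha.1 b hb.1 fun j hj => ?_
      rcases Finset.mem_insert.1 hj with rfl | hj
      · have h1 := ha.2
        have h2 := hb.2
        omega
      · exact h j hj
    have hsum := Finset.card_filter_add_card_filter_not (s := F) (fun a => (2 : ℤ) ∣ a i)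
    have hpow : 2 ^ (e + 1 + 1) = 2 * 2 ^ (e + 1) := by ring
    by_cases h1 : (F.filter (fun a => ¬ (2 : ℤ) ∣ a i)).card < 2 ^ (e + 1)
    · obtain ⟨A, hA, hA'⟩ := ih (e + 1) _ hF0 (lt_of_le_of_lt (Finset.card_filter_le _ _) hcard) φ
      obtain ⟨B, hB, hB'⟩ := ih e _ hF1 h1 (fun a => φ a - A a)
      refine ⟨A + fun a => (a i) * B a, Submodule.add_mem _ hA ?_, fun a ha => ?_⟩
      · have := coord_mul hB i
        simpa using this
      · simp only [Pi.add_apply]
        by_cases h2 : (2 : ℤ) ∣ a i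
        · have h3 := hA' a (Finset.mem_filter.2 ⟨ha, h2⟩)
          have h4 : A a + a i * B a - φ a = (A a - φ a) + a i * B a := by ring
          rw [h4]
          exact dvd_add h3 (h2.mul_right _)
        · have h3 := hB' a (Finset.mem_filter.2 ⟨ha, h2⟩)
          have h5 : (2 : ℤ) ∣ a i - 1 := by omega
          have h4 : A a + a i * B a - φ a = (B a - (φ a - A a)) + (a i - 1) * B a := by ring
          rw [h4]
          exact dvd_add h3 (h5.mul_right _)
    · have h1' : (F.filter (fun a => (2 : ℤ) ∣ a i)).card < 2 ^ (e + 1) := by omega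
      obtain ⟨A, hA, hA'⟩ := ih (e + 1) _ hF1 (lt_of_le_of_lt (Finset.card_filter_le _ _) hcard) φ
      obtain ⟨B, hB, hB'⟩ := ih e _ hF0 h1' (fun a => φ a - A a)
      refine ⟨A + B + fun a => (a i) * B a,
        Submodule.add_mem _ (Submodule.add_mem _ hA (poly_mono_succ hB)) ?_, fun a ha => ?_⟩
      · have := coord_mul hB i
        simpa using this
      · simp only [Pi.add_apply]
        by_cases h2 : (2 : ℤ) ∣ a i
        · have h3 := hB' a (Finset.mem_filter.2 ⟨ha, h2⟩)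
          have h4 : A a + B a + a i * B a - φ a = (B a - (φ a - A a)) + a i * B a := by ring
          rw [h4]
          exact dvd_add h3 (h2.mul_right _)
        · have h3 := hA' a (Finset.mem_filter.2 ⟨ha, h2⟩)
          have h5 : (2 : ℤ) ∣ 1 + a i := by omega
          have h4 : A a + B a + a i * B a - φ a = (A a - φ a) + (1 + a i) * B a := by ring
          rw [h4]
          exact dvd_add h3 (h5.mul_right _)

/-- isolation of a point -/
theorem isolate (d : ℕ) (F : Finset (Fin g → ℤ))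
    (hinj : ∀ a ∈ F, ∀ b ∈ F, (∀ i, (2 : ℤ) ∣ a i - b i) → a = b) (hcard : F.card < 2 ^ (d + 1))
    (u : Fin g → ℤ) (hu : u ∈ F) :
    ∃ f ∈ Poly ℝ g d, f u = 1 ∧ ∀ a ∈ F, a ≠ u → f a = 0 := by
  classical
  have h1 : ∀ v : F, ∃ P ∈ Poly ℤ g d, ∀ a ∈ F, (2 : ℤ) ∣ P a - (if a = v then 1 else 0) :=
    fun v => rm_lemma Finset.univ d F (fun a ha b hb h => hinj a ha b hb fun i => h i (mem_univ i))
      hcard _
  choose P hP hP' using h1
  let M : Matrix F F ℤ := fun v a => P v a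
  have hdet2 : (Int.castRingHom (ZMod 2)) M.det = 1 := by
    rw [RingHom.map_det]
    have h2 : (Int.castRingHom (ZMod 2)).mapMatrix M = 1 := by
      ext v a
      rw [RingHom.mapMatrix_apply, Matrix.map_apply, Matrix.one_apply]
      have h3 := hP' v a a.2
      have h4 : ((P v a - (if (a : Fin g → ℤ) = v then 1 else 0) : ℤ) : ZMod 2) = 0 := by
        rw [ZMod.intCast_zmod_eq_zero_iff_dvd]
        exact_mod_cast h3
      rw [Int.cast_sub, sub_eq_zero] at h4
      have h5 : (Int.castRingHom (ZMod 2)) (M v a) = ((P v a : ℤ) : ZMod 2) := rfl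
      rw [h5, h4]
      by_cases h6 : v = a
      · subst h6; simp
      · rw [if_neg h6, if_neg (fun h => h6 (Subtype.ext h.symm))]
        simp
    rw [h2, Matrix.det_one]
  have hdet : M.det ≠ 0 := by
    intro h
    rw [h, map_zero] at hdet2
    exact zero_ne_one hdet2
  let N : Matrix F F ℝ := (Int.castRingHom ℝ).mapMatrix M
  have hN : IsUnit N.det := by
    rw [isUnit_iff_ne_zero, ← RingHom.map_det]
    intro h
    have h' : ((M.det : ℤ) : ℝ) = 0 := h
    exact hdet (by exact_mod_cast h')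
  let c : F → ℝ := N⁻¹ ⟨u, hu⟩
  have hc : ∀ a : F, ∑ v, c v * N v a = if (⟨u, hu⟩ : F) = a then 1 else 0 := by
    intro a
    have := congrFun (congrFun (Matrix.nonsing_inv_mul N hN) ⟨u, hu⟩) a
    rw [Matrix.mul_apply, Matrix.one_apply] at this
    exact this
  refine ⟨∑ v : F, c v • fun n => ((P v n : ℤ) : ℝ), ?_, ?_, ?_⟩
  · exact Submodule.sum_mem _ fun v _ => Submodule.smul_mem _ _ (poly_cast (hP v))
  · have := hc ⟨u, hu⟩
    rw [if_pos rfl] at this
    rw [← this, Finset.sum_apply]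
    exact Finset.sum_congr rfl fun v _ => rfl
  · intro a ha hau
    have := hc ⟨a, ha⟩
    rw [if_neg (fun h => hau (Subtype.ext_iff.1 h).symm)] at this
    rw [← this, Finset.sum_apply]
    exact Finset.sum_congr rfl fun v _ => rfl

theorem finite_ball {Y : Matrix (Fin g) (Fin g) ℝ} (hY : Y.PosDef) (hYs : Y.transpose = Y)
    (x : Fin g → ℝ) (r : ℝ) : {n : Fin g → ℤ | qf Y (zc n - x) ≤ r}.Finite := by
  obtain ⟨lam, hlam, hfin⟩ := finite_sub hY ((-2 : ℝ) • (Y *ᵥ x))
  refine (hfin ((|r - qf Y x| + 1) / lam)).subset ?_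
  intro n hn
  rw [Set.mem_ofPred_eq] at hn ⊢
  rw [qf_sub hYs] at hn
  rw [dotProduct_smul, smul_eq_mul, mul_add, mul_div_cancel₀ _ hlam.ne']
  have h1 := le_abs_self (r - qf Y x)
  have h2 : 0 ≤ lam * ∑ i, (n i : ℝ) ^ 2 := by positivity
  linarith

theorem exists_nearest {Y : Matrix (Fin g) (Fin g) ℝ} (hY : Y.PosDef) (hYs : Y.transpose = Y)
    (x : Fin g → ℝ) : ∃ u : Fin g → ℤ, ∀ n, qf Y (zc u - x) ≤ qf Y (zc n - x) := by
  have hfin := finite_ball hY hYs x (qf Y (zc (0 : Fin g → ℤ) - x))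
  obtain ⟨u, hu, hmin⟩ := Set.exists_min_image _ (fun n : Fin g → ℤ => qf Y (zc n - x)) hfin
    ⟨0, by rw [Set.mem_ofPred_eq]⟩
  refine ⟨u, fun n => ?_⟩
  by_cases hn : qf Y (zc n - x) ≤ qf Y (zc (0 : Fin g → ℤ) - x)
  · exact hmin n hn
  · exact le_trans hu (not_le.1 hn).le

theorem nearest_inj {Y : Matrix (Fin g) (Fin g) ℝ} (hY : Y.PosDef) (hYs : Y.transpose = Y)
    (x : Fin g → ℝ) (a b : Fin g → ℤ) (ha : ∀ n, qf Y (zc a - x) ≤ qf Y (zc n - x))
    (hb : ∀ n, qf Y (zc b - x) ≤ qf Y (zc n - x)) (h : ∀ i, (2 : ℤ) ∣ a i - b i) : a = b := by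
  by_contra hne
  choose c hc using h
  -- `a = b + 2 c`
  have hab : a = b + (2 : ℤ) • c := by
    funext i
    have := hc i
    simp only [Pi.add_apply, Pi.smul_apply, smul_eq_mul]
    linarith
  have hc0 : c ≠ 0 := by
    rintro rfl
    exact hne (by rw [hab]; simp)
  have hzc : zc c ≠ 0 := by
    intro h
    apply hc0
    funext i
    have := congrFun h i
    simpa [zc] using this
  have hpos : 0 < qf Y (zc c) := by
    have := hY.dotProduct_mulVec_pos hzc
    simpa [qf] using this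
  have h1 := hb (b + c)
  have h2 := ha (b + c)
  have e1 : zc (b + c) - x = (zc b - x) + zc c := by rw [zc_add]; abel
  have e2 : zc a - x = (zc b - x) + ((2 : ℝ) • zc c) := by
    rw [hab, zc_add]
    have : zc ((2 : ℤ) • c) = (2 : ℝ) • zc c := by
      funext i; simp [zc]
    rw [this]; abel
  have hba := ha b
  have hab' := hb a
  rw [e1, qf_add hYs] at h1 h2
  rw [e2, qf_add hYs] at h2 hba hab'
  have e3 : qf Y ((2 : ℝ) • zc c) = 4 * qf Y (zc c) := by
    unfold qf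
    rw [Matrix.mulVec_smul, dotProduct_smul, smul_dotProduct]
    simp only [smul_eq_mul]
    ring
  have e4 : (zc b - x) ⬝ᵥ (Y *ᵥ ((2 : ℝ) • zc c)) = 2 * ((zc b - x) ⬝ᵥ (Y *ᵥ zc c)) := by
    rw [Matrix.mulVec_smul, dotProduct_smul, smul_eq_mul]
  rw [e3, e4] at h2 hba hab'
  nlinarith

/-- the multiplicity is at most the binary logarithm of the number of nearest points -/
theorem good_card (Y : Matrix (Fin g) (Fin g) ℝ) (hY : Y.PosDef) (d : ℕ)
    (h : ∀ (x : Fin g → ℝ) (F : Finset (Fin g → ℤ)),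
      (∀ n ∈ F, ∀ m : Fin g → ℤ, qf Y (zc n - x) ≤ qf Y (zc m - x)) → F.card < 2 ^ (d + 1)) :
    ∀ x : Fin g → ℝ, ∃ u : Fin g → ℤ, ∃ f ∈ Poly ℝ g d, f u ≠ 0 ∧
      ∀ n, n ≠ u → qf Y (zc n - x) ≤ qf Y (zc u - x) → f n = 0 := by
  have hYs : Y.transpose = Y := by
    have := hY.isHermitian.eq
    rwa [Matrix.conjTranspose_eq_transpose_of_trivial] at this
  intro x
  obtain ⟨u, hu⟩ := exists_nearest hY hYs x
  have hfin := finite_ball hY hYs x (qf Y (zc u - x))
  have hmem : ∀ n, n ∈ hfin.toFinset ↔ ∀ m : Fin g → ℤ, qf Y (zc n - x) ≤ qf Y (zc m - x) := by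
    intro n
    rw [Set.Finite.mem_toFinset, Set.mem_ofPred_eq]
    exact ⟨fun h1 m => h1.trans (hu m), fun h1 => h1 u⟩
  obtain ⟨f, hf, hfu, hf0⟩ := isolate d hfin.toFinset (fun a ha b hb hab =>
    nearest_inj hY hYs x a b ((hmem a).1 ha) ((hmem b).1 hb) hab)
    (h x _ fun n hn => (hmem n).1 hn) u ((hmem u).2 hu)
  refine ⟨u, f, hf, by rw [hfu]; exact one_ne_zero, fun n hn hq => hf0 n ?_ hn⟩
  rw [Set.Finite.mem_toFinset]
  exact hq

end Pool.TCD
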