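import Pool.Agent.Work.MP_29fd3c_cd.TUC

/-!
# Unimodular systems with a relation, and Voronoi's principal cone
-/

set_option autoImplicit false

namespace Pool.TCD

open Finset Complex Matrix Pool.TH Pool.TK

section relation

variable {g : ℕ} {ι : Type} [Fintype ι]

theorem rel_hat (v : ι → Fin g → ℤ) (S : Finset ι) (c : ι → ℝ)
    (hrel : ∀ i, ∑ e ∈ S, c e * (v e i : ℝ) = 0) (k : Fin g → ℤ) :
    ∑ e ∈ S, c e * (hat v k e : ℝ) = 0 := by
  have h1 : ∀ e, c e * (hat v k e : ℝ) = ∑ i, (c e * (v e i : ℝ)) * (k i : ℝ) := by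
    intro e
    unfold hat
    push_cast
    rw [mul_sum]
    exact sum_congr rfl fun i _ => by ring
  simp only [h1]
  rw [Finset.sum_comm]
  refine sum_eq_zero fun i _ => ?_
  rw [← sum_mul, hrel i, zero_mul]

/-- a relation gives isolating sets -/
theorem fas_relation {v : ι → Fin g → ℤ} {S : Finset ι} (hv : Unim v S) (c : ι → ℝ)
    (hc : ∀ e ∈ S, c e ≠ 0) (hrel : ∀ i, ∑ e ∈ S, c e * (v e i : ℝ) = 0) (σ : ι → ℤ)
    (hσ : ∀ e, σ e = 1 ∨ σ e = -1) :
    ∃ D : Finset ι, D ⊆ S ∧ D.card ≤ S.card / 2 ∧ ∀ k : Fin g → ℤ, k ≠ 0 →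
      (∀ e ∈ S, hat v k e = 0 ∨ hat v k e = σ e) → ∃ e ∈ D, hat v k e ≠ 0 := by
  classical
  have hcσ : ∀ e ∈ S, c e * (σ e : ℝ) ≠ 0 := by
    intro e he
    refine mul_ne_zero (hc e he) ?_
    rcases hσ e with h | h <;> rw [h] <;> norm_num
  have hex : ∀ k : Fin g → ℤ, k ≠ 0 → ∃ e ∈ S, hat v k e ≠ 0 := by
    intro k hk
    by_contra hcon
    push Not at hcon
    exact hk (hv.injS hcon)
  set A := S.filter (fun e => 0 < c e * (σ e : ℝ)) with hA
  set B := S.filter (fun e => ¬ 0 < c e * (σ e : ℝ)) with hB
  have hsum : A.card + B.card = S.card :=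
    Finset.card_filter_add_card_filter_not (s := S) (fun e => 0 < c e * (σ e : ℝ))
  rcases le_or_gt A.card (S.card / 2) with h | h
  · refine ⟨A, Finset.filter_subset _ _, h, fun k hk hke => ?_⟩
    by_contra hcon
    push Not at hcon
    have h1 := rel_hat v S c hrel k
    have hterm : ∀ e ∈ S, c e * (hat v k e : ℝ) ≤ 0 ∧
        (hat v k e ≠ 0 → c e * (hat v k e : ℝ) < 0) := by
      intro e heS
      rcases hke e heS with h2 | h2
      · rw [h2]
        simp
      · by_cases he : e ∈ A
        · rw [hcon e he]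
          simp
        · rw [hA, Finset.mem_filter] at he
          have h3 : c e * (σ e : ℝ) ≤ 0 := by
            by_contra h4
            exact he ⟨heS, not_le.1 h4⟩
          have h4 := lt_of_le_of_ne h3 (hcσ e heS)
          rw [h2]
          exact ⟨h3, fun _ => h4⟩
    obtain ⟨e₀, heS₀, he₀⟩ := hex k hk
    have h2 := sum_neg' (fun e he => (hterm e he).1) ⟨e₀, heS₀, (hterm e₀ heS₀).2 he₀⟩
    linarith
  · have hBc : B.card ≤ S.card / 2 := by omega
    refine ⟨B, Finset.filter_subset _ _, hBc, fun k hk hke => ?_⟩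
    by_contra hcon
    push Not at hcon
    have h1 := rel_hat v S c hrel k
    have hterm : ∀ e ∈ S, 0 ≤ c e * (hat v k e : ℝ) ∧
        (hat v k e ≠ 0 → 0 < c e * (hat v k e : ℝ)) := by
      intro e heS
      rcases hke e heS with h2 | h2
      · rw [h2]
        simp
      · by_cases he : e ∈ B
        · rw [hcon e he]
          simp
        · rw [hB, Finset.mem_filter] at he
          have h3 : 0 < c e * (σ e : ℝ) := by
            by_contra h4
            exact he ⟨heS, h4⟩
          rw [h2]
          exact ⟨h3.le, fun _ => h3⟩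
    obtain ⟨e₀, heS₀, he₀⟩ := hex k hk
    have h2 := sum_pos' (fun e he => (hterm e he).1) ⟨e₀, heS₀, (hterm e₀ heS₀).2 he₀⟩
    linarith

end relation

/-- the edges of the complete graph with vertices the indices and a root: the pair `(a, a)` is the
edge from `a` to the root -/
def vP (g : ℕ) (p : Fin g × Fin g) (i : Fin g) : ℤ :=
  (if i = p.1 then 1 else 0) - (if p.1 = p.2 then 0 else if i = p.2 then 1 else 0)

theorem hatP (g : ℕ) (n : Fin g → ℤ) (p : Fin g × Fin g) :
    hat (vP g) n p = n p.1 - (if p.1 = p.2 then 0 else n p.2) := by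
  unfold hat vP
  by_cases h : p.1 = p.2
  · simp [h]
  · simp [h, sub_mul, sum_sub_distrib]

theorem rhatP (g : ℕ) (x : Fin g → ℝ) (p : Fin g × Fin g) :
    ∑ i, (vP g p i : ℝ) * x i = x p.1 - (if p.1 = p.2 then 0 else x p.2) := by
  unfold vP
  by_cases h : p.1 = p.2
  · simp [h]
  · simp [h, sub_mul, sum_sub_distrib]

theorem confP (g : ℕ) (n : Fin g → ℤ) (hn : n ≠ 0) :
    ∃ k : Fin g → ℤ, k ≠ 0 ∧ ∀ e, |hat (vP g) k e| ≤ 1 ∧
      (hat (vP g) k e ≠ 0 → 0 < hat (vP g) k e * hat (vP g) n e) := by
  classical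
  by_cases hP : ∃ i, 0 < n i
  · refine ⟨fun i => if 0 < n i then 1 else 0, ?_, fun p => ?_⟩
    · obtain ⟨i, hi⟩ := hP
      intro h
      have := congrFun h i
      simp only [Pi.zero_apply] at this
      rw [if_pos hi] at this
      exact one_ne_zero this
    · rw [hatP, hatP]
      by_cases h : p.1 = p.2
      · rw [if_pos h, if_pos h]
        by_cases h1 : 0 < n p.1
        · rw [if_pos h1]
          refine ⟨by norm_num, fun _ => by linarith⟩
        · rw [if_neg h1]
          simp
      · rw [if_neg h, if_neg h]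
        by_cases h1 : 0 < n p.1
        · by_cases h2 : 0 < n p.2
          · rw [if_pos h1, if_pos h2]
            simp
          · rw [if_pos h1, if_neg h2]
            refine ⟨by norm_num, fun _ => by linarith⟩
        · by_cases h2 : 0 < n p.2
          · rw [if_neg h1, if_pos h2]
            refine ⟨by norm_num, fun _ => by linarith⟩
          · rw [if_neg h1, if_neg h2]
            simp
  · push Not at hP
    refine ⟨fun i => if n i < 0 then -1 else 0, ?_, fun p => ?_⟩
    · obtain ⟨i, hi⟩ : ∃ i, n i ≠ 0 := by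
        by_contra hcon
        push Not at hcon
        exact hn (funext hcon)
      intro h
      have := congrFun h i
      simp only [Pi.zero_apply] at this
      rw [if_pos (lt_of_le_of_ne (hP i) hi)] at this
      norm_num at this
    · rw [hatP, hatP]
      have hp1 := hP p.1
      have hp2 := hP p.2
      by_cases h : p.1 = p.2
      · rw [if_pos h, if_pos h]
        by_cases h1 : n p.1 < 0
        · rw [if_pos h1]
          refine ⟨by norm_num, fun _ => by linarith⟩
        · rw [if_neg h1]
          simp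
      · rw [if_neg h, if_neg h]
        by_cases h1 : n p.1 < 0
        · by_cases h2 : n p.2 < 0
          · rw [if_pos h1, if_pos h2]
            simp
          · rw [if_pos h1, if_neg h2]
            refine ⟨by norm_num, fun _ => by linarith⟩
        · by_cases h2 : n p.2 < 0
          · rw [if_neg h1, if_pos h2]
            refine ⟨by norm_num, fun _ => by linarith⟩
          · rw [if_neg h1, if_neg h2]
            simp

/-- a Hamilton cycle -/
def cyc {h : ℕ} (π : Equiv.Perm (Fin (h + 1))) : Finset (Fin (h + 1) × Fin (h + 1)) :=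
  insert (π 0, π 0) (insert (π (Fin.last h), π (Fin.last h))
    (Finset.univ.image fun i : Fin h => (π i.castSucc, π i.succ)))

theorem cyc_card {h : ℕ} (π : Equiv.Perm (Fin (h + 1))) : (cyc π).card ≤ h + 2 := by
  unfold cyc
  refine (Finset.card_insert_le _ _).trans ?_
  have h1 := Finset.card_insert_le (π (Fin.last h), π (Fin.last h))
    (Finset.univ.image fun i : Fin h => (π i.castSucc, π i.succ))
  have h2 : (Finset.univ.image fun i : Fin h => (π i.castSucc, π i.succ)).card ≤ h :=
    Finset.card_image_le.trans (by simp)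
  omega

theorem castSucc_ne_succ {h : ℕ} (i : Fin h) : i.castSucc ≠ i.succ := by
  intro h1
  have := congrArg Fin.val h1
  simp at this

theorem unimP {h : ℕ} (π : Equiv.Perm (Fin (h + 1))) : Unim (vP (h + 1)) (cyc π) := by
  classical
  refine ⟨fun x hx => ?_, confP (h + 1)⟩
  have h0 : x (π 0) = 0 := by
    have := hx (π 0, π 0) (by simp [cyc])
    rw [rhatP] at this
    simpa using this
  have hs : ∀ i : Fin h, x (π i.castSucc) = x (π i.succ) := by
    intro i
    have := hx (π i.castSucc, π i.succ) (by
      unfold cyc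
      refine Finset.mem_insert_of_mem (Finset.mem_insert_of_mem ?_)
      exact Finset.mem_image_of_mem _ (Finset.mem_univ i))
    rw [rhatP, if_neg (fun h1 => castSucc_ne_succ i (π.injective h1))] at this
    linarith
  have hall : ∀ i : Fin (h + 1), x (π i) = 0 := by
    intro i
    induction i using Fin.induction with
    | zero => exact h0
    | succ i ih => rw [← hs i]; exact ih
  funext j
  have := hall (π.symm j)
  rwa [Equiv.apply_symm_apply] at this

theorem relP {h : ℕ} (hh : 1 ≤ h) (π : Equiv.Perm (Fin (h + 1))) (i : Fin (h + 1)) :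
    ∑ e ∈ cyc π, (if e = (π 0, π 0) then (1 : ℝ) else -1) * (vP (h + 1) e i : ℝ) = 0 := by
  classical
  have hne : (0 : Fin (h + 1)) ≠ Fin.last h := by
    intro h1
    have := congrArg Fin.val h1
    simp at this
    omega
  have hd : ∀ (a b : Fin (h + 1)) (x : Fin (h + 1)), a ≠ b → (a, b) ≠ (x, x) := by
    intro a b x hab h1
    rw [Prod.mk.injEq] at h1
    exact hab (h1.1.trans h1.2.symm)
  have hcs : ∀ i : Fin h, π i.castSucc ≠ π i.succ := fun i h1 =>
    castSucc_ne_succ i (π.injective h1)
  unfold cyc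
  rw [Finset.sum_insert, Finset.sum_insert, Finset.sum_image]
  · have h1 : ∀ j : Fin h, (if (π j.castSucc, π j.succ) = (π 0, π 0) then (1 : ℝ) else -1) *
        (vP (h + 1) (π j.castSucc, π j.succ) i : ℝ) =
        (if i = π j.succ then (1 : ℝ) else 0) - (if i = π j.castSucc then 1 else 0) := by
      intro j
      rw [if_neg (hd _ _ _ (hcs j))]
      unfold vP
      simp only
      rw [if_neg (hcs j)]
      push_cast
      ring
    simp only [h1]
    rw [sum_sub_distrib]
    have h2 := Fin.sum_univ_succ (fun j : Fin (h + 1) => if i = π j then (1 : ℝ) else 0)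
    have h3 := Fin.sum_univ_castSucc (fun j : Fin (h + 1) => if i = π j then (1 : ℝ) else 0)
    have h4 : (π (Fin.last h), π (Fin.last h)) ≠ (π 0, π 0) := by
      intro h1
      rw [Prod.mk.injEq] at h1
      exact hne (π.injective h1.1).symm
    rw [if_pos trivial, if_neg h4]
    unfold vP
    simp only [if_true]
    push_cast
    linarith
  · intro a _ b _ hab
    simp only [Prod.mk.injEq] at hab
    exact Fin.castSucc_injective _ (π.injective hab.1)
  · rw [Finset.mem_image]
    rintro ⟨j, _, hj⟩
    exact hd _ _ _ (hcs j) hj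
  · rw [Finset.mem_insert, Finset.mem_image]
    rintro (h1 | ⟨j, _, hj⟩)
    · rw [Prod.mk.injEq] at h1
      exact hne (π.injective h1.1)
    · exact hd _ _ _ (hcs j) hj

/-- the weights of a matrix of the principal cone -/
noncomputable def sP {g : ℕ} (Y : Matrix (Fin g) (Fin g) ℝ) (p : Fin g × Fin g) : ℝ :=
  if p.1 = p.2 then ∑ j, Y p.1 j else -Y p.1 p.2 / 2

theorem gramP {g : ℕ} (Y : Matrix (Fin g) (Fin g) ℝ) (hY : Y.transpose = Y) (i j : Fin g) :
    ∑ p, sP Y p * (vP g p i : ℝ) * (vP g p j : ℝ) = Y i j := by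
  classical
  have hsymm : ∀ a b, Y a b = Y b a := fun a b => by
    conv_lhs => rw [← hY]
    rfl
  have h1 : ∀ p : Fin g × Fin g, sP Y p * (vP g p i : ℝ) * (vP g p j : ℝ) =
      (if p.1 = p.2 then (∑ l, Y p.1 l) * (if i = p.1 then 1 else 0) * (if j = p.1 then 1 else 0)
        else 0) +
      (-Y p.1 p.2 / 2) * ((if i = p.1 then (1 : ℝ) else 0) - (if i = p.2 then 1 else 0)) *
        ((if j = p.1 then (1 : ℝ) else 0) - (if j = p.2 then 1 else 0)) := by
    intro p
    unfold sP vP
    by_cases h : p.1 = p.2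
    · rw [if_pos h, if_pos h, if_pos h, if_pos h, h]
      push_cast
      ring
    · rw [if_neg h, if_neg h, if_neg h, if_neg h]
      push_cast
      ring
  simp only [h1]
  rw [sum_add_distrib, Fintype.sum_prod_type, Fintype.sum_prod_type]
  have h2 : ∑ a, ∑ b, (if a = b then (∑ l, Y a l) * (if i = a then (1 : ℝ) else 0) *
      (if j = a then 1 else 0) else 0) = if i = j then ∑ l, Y i l else 0 := by
    simp only [Finset.sum_ite_eq, Finset.mem_univ, if_true]
    have h3 : ∀ a, (∑ l, Y a l) * (if i = a then (1 : ℝ) else 0) * (if j = a then 1 else 0) =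
        if i = a then (if j = i then ∑ l, Y i l else 0) else 0 := by
      intro a
      by_cases h : i = a
      · subst h
        by_cases h' : j = i
        · simp [h']
        · simp [h']
      · simp [h]
    simp only [h3, Finset.sum_ite_eq, Finset.mem_univ, if_true]
    by_cases h' : i = j
    · simp [h']
    · rw [if_neg h', if_neg (Ne.symm h')]
  have h3 : ∑ a, ∑ b, (-Y a b / 2) * ((if i = a then (1 : ℝ) else 0) - (if i = b then 1 else 0)) *
      ((if j = a then (1 : ℝ) else 0) - (if j = b then 1 else 0)) =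
      Y i j - if i = j then ∑ l, Y i l else 0 := by
    have h4 : ∀ a b, (-Y a b / 2) * ((if i = a then (1 : ℝ) else 0) - (if i = b then 1 else 0)) *
        ((if j = a then (1 : ℝ) else 0) - (if j = b then 1 else 0)) =
        -(if i = a then (if j = a then Y a b / 2 else 0) else 0) +
          (if i = a then (if j = b then Y a b / 2 else 0) else 0) +
          (if i = b then (if j = a then Y a b / 2 else 0) else 0) -
          (if i = b then (if j = b then Y a b / 2 else 0) else 0) := by
      intro a b
      split_ifs <;> ring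
    simp only [h4, sum_add_distrib, sum_sub_distrib, sum_neg_distrib]
    have e1 : ∑ a, ∑ b, (if i = a then (if j = a then Y a b / 2 else 0) else 0) =
        if i = j then (∑ l, Y i l) / 2 else 0 := by
      have : ∀ a, ∑ b, (if i = a then (if j = a then Y a b / 2 else 0) else 0) =
          if i = a then (if j = i then (∑ l, Y i l) / 2 else 0) else 0 := by
        intro a
        by_cases h : i = a
        · subst h
          by_cases h' : j = i
          · simp [h', sum_div]
          · simp [h']
        · simp [h]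
      simp only [this, Finset.sum_ite_eq, Finset.mem_univ, if_true]
      by_cases h' : i = j
      · simp [h']
      · rw [if_neg h', if_neg (Ne.symm h')]
    have e2 : ∑ a, ∑ b, (if i = a then (if j = b then Y a b / 2 else 0) else 0) = Y i j / 2 := by
      have : ∀ a, ∑ b, (if i = a then (if j = b then Y a b / 2 else 0) else 0) =
          if i = a then Y a j / 2 else 0 := by
        intro a
        by_cases h : i = a
        · simp [h]
        · simp [h]
      simp only [this, Finset.sum_ite_eq, Finset.mem_univ, if_true]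
    have e3 : ∑ a, ∑ b, (if i = b then (if j = a then Y a b / 2 else 0) else 0) = Y i j / 2 := by
      have : ∀ a, ∑ b, (if i = b then (if j = a then Y a b / 2 else 0) else 0) =
          if j = a then Y a i / 2 else 0 := by
        intro a
        simp only [Finset.sum_ite_eq, Finset.mem_univ, if_true]
      simp only [this, Finset.sum_ite_eq, Finset.mem_univ, if_true]
      rw [hsymm j i]
    have e4 : ∑ a, ∑ b, (if i = b then (if j = b then Y a b / 2 else 0) else 0) =
        if i = j then (∑ l, Y i l) / 2 else 0 := by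
      simp only [Finset.sum_ite_eq, Finset.mem_univ, if_true]
      by_cases h' : i = j
      · rw [if_pos h']
        simp only [if_pos h'.symm]
        rw [sum_div]
        exact sum_congr rfl fun a _ => by rw [hsymm]
      · rw [if_neg h']
        simp only [if_neg (Ne.symm h'), sum_const_zero]
    rw [e1, e2, e3, e4]
    by_cases h' : i = j
    · rw [if_pos h', if_pos h']
      ring
    · rw [if_neg h', if_neg h']
      ring
  rw [h2, h3]
  ring

/-- the principal cone: one Hamilton cycle -/
theorem principal_one {h : ℕ} (hh : 1 ≤ h) (π : Equiv.Perm (Fin (h + 1))) :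
    ∃ η : ℝ, 0 < η ∧
    ∀ τ : Matrix (Fin (h + 1)) (Fin (h + 1)) ℂ, τ.transpose = τ → (τ.map Complex.im).PosDef →
      ∀ (t : ℝ) (Y : Matrix (Fin (h + 1)) (Fin (h + 1)) ℝ), 1 / η ≤ t → Y.transpose = Y →
      (∀ i j, i ≠ j → Y i j ≤ 0) → (∀ i, 0 ≤ ∑ j, Y i j) →
      (∀ i : Fin h, Y (π i.castSucc) (π i.succ) ≤ -t) → t ≤ ∑ j, Y (π 0) j →
      t ≤ ∑ j, Y (π (Fin.last h)) j →
      (∀ i j, |(τ i j).im - Y i j| ≤ η * t) →
      ∀ z : Fin (h + 1) → ℂ, ∃ k ≤ (h + 2) / 2, iteratedFDeriv ℂ k (theta τ) z ≠ 0 := by
  classical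
  obtain ⟨η, hη, H⟩ := matroidal (vP (h + 1)) (cyc π) (unimP π) ((cyc π).card / 2)
    (fas_relation (unimP π) (fun e => if e = (π 0, π 0) then (1 : ℝ) else -1)
      (fun e _ => by split_ifs <;> norm_num) (relP hh π))
  refine ⟨η / 2, by positivity, ?_⟩
  intro τ hτ hpos t Y ht hY hoff hrow hcyc h0 hlast hc z
  have ht' : 1 / η ≤ t / 2 := by
    have : 1 / (η / 2) = 2 * (1 / η) := by field_simp
    rw [this] at ht
    linarith
  have ht0 : 0 < t := lt_of_lt_of_le (by positivity) ht
  obtain ⟨k, hk, hne⟩ := H τ hτ hpos (t / 2) (sP Y) ht' (by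
      intro p
      unfold sP
      by_cases h1 : p.1 = p.2
      · rw [if_pos h1]
        exact hrow _
      · rw [if_neg h1]
        have := hoff _ _ h1
        linarith) (by
      intro p hp
      unfold cyc at hp
      rw [Finset.mem_insert, Finset.mem_insert, Finset.mem_image] at hp
      unfold sP
      rcases hp with rfl | rfl | ⟨i, _, rfl⟩
      · simp only [if_true]
        linarith
      · simp only [if_true]
        linarith
      · simp only
        rw [if_neg (fun h1 => castSucc_ne_succ i (π.injective h1))]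
        have := hcyc i
        linarith) (by
      intro i j
      rw [gramP Y hY]
      have := hc i j
      linarith) z
  refine ⟨k, hk.trans ?_, hne⟩
  exact Nat.div_le_div_right (cyc_card π)

/-- the principal cone -/
theorem principal (h : ℕ) (hh : 1 ≤ h) :
    ∃ η : ℝ, 0 < η ∧
    ∀ τ : Matrix (Fin (h + 1)) (Fin (h + 1)) ℂ, τ.transpose = τ → (τ.map Complex.im).PosDef →
      ∀ (t : ℝ) (Y : Matrix (Fin (h + 1)) (Fin (h + 1)) ℝ) (π : Equiv.Perm (Fin (h + 1))),
      1 / η ≤ t → Y.transpose = Y →
      (∀ i j, i ≠ j → Y i j ≤ 0) → (∀ i, 0 ≤ ∑ j, Y i j) →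
      (∀ i : Fin h, Y (π i.castSucc) (π i.succ) ≤ -t) → t ≤ ∑ j, Y (π 0) j →
      t ≤ ∑ j, Y (π (Fin.last h)) j →
      (∀ i j, |(τ i j).im - Y i j| ≤ η * t) →
      ∀ z : Fin (h + 1) → ℂ, ∃ k ≤ (h + 2) / 2, iteratedFDeriv ℂ k (theta τ) z ≠ 0 := by
  classical
  choose η hη H using fun π : Equiv.Perm (Fin (h + 1)) => principal_one hh π
  obtain ⟨π₀, -, hmin⟩ := Finset.exists_min_image Finset.univ η ⟨1, Finset.mem_univ _⟩
  refine ⟨η π₀, hη π₀, ?_⟩
  intro τ hτ hpos t Y π ht hY hoff hrow hcyc h0 hlast hc z
  have hle := hmin π (Finset.mem_univ _)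
  have ht0 : 0 < t := lt_of_lt_of_le (one_div_pos.2 (hη π₀)) ht
  refine H π τ hτ hpos t Y ?_ hY hoff hrow hcyc h0 hlast ?_ z
  · exact le_trans (one_div_le_one_div_of_le (hη π₀) hle) ht
  · exact fun i j => (hc i j).trans (mul_le_mul_of_nonneg_right hle ht0.le)

end Pool.TCD
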