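import Pool.Agent.Work.MP_29fd3c_cd.PartD

/-!
# The direction of the root lattice `D_g`
-/

set_option autoImplicit false

namespace Pool.TCD

open Finset Complex Matrix Pool.TH Pool.TK

variable {g : ℕ}

/-- the difference of the distances in coordinates -/
theorem qf_map (B : Matrix (Fin g) (Fin g) ℤ) (x : Fin g → ℝ) :
    qf ((B.map (Int.cast : ℤ → ℝ)).transpose * B.map (Int.cast : ℤ → ℝ)) x =
      ∑ i, (((B.map (Int.cast : ℤ → ℝ)) *ᵥ x) i) ^ 2 := by
  unfold qf
  rw [← Matrix.mulVec_mulVec, Matrix.dotProduct_mulVec, Matrix.vecMul_transpose]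
  simp only [dotProduct, pow_two]

theorem sum_single_two (w : Fin g → ℝ) {i j : Fin g} (hij : i ≠ j) (a b : ℤ) :
    ∑ l, ((((if l = i then a else 0) + (if l = j then b else 0) : ℤ) : ℝ) ^ 2 +
      2 * (((if l = i then a else 0) + (if l = j then b else 0) : ℤ) : ℝ) * w l) =
      (a : ℝ) ^ 2 + 2 * a * w i + ((b : ℝ) ^ 2 + 2 * b * w j) := by
  classical
  have h1 : ∀ l, ((((if l = i then a else 0) + (if l = j then b else 0) : ℤ) : ℝ) ^ 2 +
      2 * (((if l = i then a else 0) + (if l = j then b else 0) : ℤ) : ℝ) * w l) =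
      (if l = i then (a : ℝ) ^ 2 + 2 * a * w i else 0) +
        (if l = j then (b : ℝ) ^ 2 + 2 * b * w j else 0) := by
    intro l
    by_cases hi : l = i
    · subst hi
      simp [hij]
    · by_cases hj : l = j
      · subst hj
        simp [hi]
      · simp [hi, hj]
  simp only [h1]
  rw [sum_add_distrib]
  simp

/-- isolation for `D_g`, in coordinates -/
theorem isolD (hg : 4 ≤ g) (w : Fin g → ℝ)
    (hmin : ∀ y : Fin g → ℤ, Even (∑ i, y i) → 0 ≤ ∑ i, ((y i : ℝ) ^ 2 + 2 * (y i) * w i)) :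
    ∃ l : Fin (g / 2) → ℝ × (Fin g → ℝ), (∏ j, (l j).1) = 1 ∧
      ∀ y : Fin g → ℤ, Even (∑ i, y i) → y ≠ 0 →
        ∑ i, ((y i : ℝ) ^ 2 + 2 * (y i) * w i) ≤ 0 → ∏ j, aff (l j) y = 0 := by
  classical
  -- the constraints
  have hpair : ∀ i j, i ≠ j → |w i| + |w j| ≤ 1 := by
    intro i j hij
    have h1 : ∀ a b : ℤ, (a = 1 ∨ a = -1) → (b = 1 ∨ b = -1) →
        0 ≤ (a : ℝ) ^ 2 + 2 * a * w i + ((b : ℝ) ^ 2 + 2 * b * w j) := by
      intro a b ha hb
      rw [← sum_single_two w hij a b]
      refine hmin (fun l => (if l = i then a else 0) + (if l = j then b else 0)) ?_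
      rw [sum_add_distrib]
      simp only [sum_ite_eq', mem_univ, if_true]
      rcases ha with rfl | rfl <;> rcases hb with rfl | rfl <;> decide
    have h2 := h1 1 1 (Or.inl rfl) (Or.inl rfl)
    have h3 := h1 1 (-1) (Or.inl rfl) (Or.inr rfl)
    have h4 := h1 (-1) 1 (Or.inr rfl) (Or.inl rfl)
    have h5 := h1 (-1) (-1) (Or.inr rfl) (Or.inr rfl)
    push_cast at h2 h3 h4 h5
    rcases abs_cases (w i) with ⟨h6, _⟩ | ⟨h6, _⟩ <;>
      rcases abs_cases (w j) with ⟨h7, _⟩ | ⟨h7, _⟩ <;> rw [h6, h7] <;> linarith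
  by_cases hbig : ∃ i, 1 / 2 < |w i|
  · -- one large coordinate
    obtain ⟨i, hi⟩ := hbig
    have hwi : |w i| ≤ 1 := by
      obtain ⟨j, hj⟩ : ∃ j : Fin g, j ≠ i := by
        have : 1 < Fintype.card (Fin g) := by rw [Fintype.card_fin]; omega
        exact Fintype.exists_ne_of_one_lt_card this i
      have := hpair i j hj.symm
      have := abs_nonneg (w j)
      linarith
    obtain ⟨s, hs, hsw⟩ : ∃ s : ℤ, (s = 1 ∨ s = -1) ∧ (s : ℝ) * w i = |w i| := by
      rcases abs_cases (w i) with ⟨h6, _⟩ | ⟨h6, _⟩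
      · exact ⟨1, Or.inl rfl, by rw [h6]; simp⟩
      · exact ⟨-1, Or.inr rfl, by rw [h6]; simp⟩
    have hroot : ∀ y : Fin g → ℤ, Even (∑ i, y i) → y ≠ 0 →
        ∑ i, ((y i : ℝ) ^ 2 + 2 * (y i) * w i) ≤ 0 → s * y i = -1 ∨ s * y i = -2 := by
      intro y _ hy0 hy
      have hterm : ∀ j, j ≠ i → 0 ≤ (y j : ℝ) ^ 2 + 2 * (y j) * w j ∧
          (y j ≠ 0 → 0 < (y j : ℝ) ^ 2 + 2 * (y j) * w j) := by
        intro j hj
        by_cases h0 : y j = 0
        · rw [h0]; simp
        · have h1 := hpair i j hj.symm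
          have h2 : (1 : ℝ) ≤ |(y j : ℝ)| := by
            have : 1 ≤ |y j| := Int.one_le_abs h0
            exact_mod_cast this
          have h3 : -(|(y j : ℝ)| * |w j|) ≤ (y j : ℝ) * w j := by
            rw [← abs_mul]
            exact neg_abs_le _
          have h4 : 0 < (y j : ℝ) ^ 2 + 2 * (y j) * w j := by
            rw [← sq_abs]
            have h5 : |w j| < 1 / 2 := by linarith
            have := abs_nonneg (w j)
            nlinarith
          exact ⟨h4.le, fun _ => h4⟩
      have hsplit := Finset.add_sum_erase Finset.univ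
        (fun l => (y l : ℝ) ^ 2 + 2 * (y l) * w l) (mem_univ i)
      have hrest : 0 ≤ ∑ l ∈ Finset.univ.erase i, ((y l : ℝ) ^ 2 + 2 * (y l) * w l) :=
        sum_nonneg fun l hl => (hterm l (Finset.ne_of_mem_erase hl)).1
      have hyi : y i ≠ 0 := by
        intro h0
        rw [h0] at hsplit
        have h1 : ∃ j, j ≠ i ∧ y j ≠ 0 := by
          by_contra hcon
          push Not at hcon
          apply hy0
          funext j
          by_cases hj : j = i
          · rw [hj, h0]; rfl
          · exact hcon j hj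
        obtain ⟨j, hj, hyj⟩ := h1
        have h2 : 0 < ∑ l ∈ Finset.univ.erase i, ((y l : ℝ) ^ 2 + 2 * (y l) * w l) :=
          sum_pos' (fun l hl => (hterm l (Finset.ne_of_mem_erase hl)).1)
            ⟨j, Finset.mem_erase.2 ⟨hj, mem_univ _⟩, (hterm j hj).2 hyj⟩
        push_cast at hsplit
        linarith
      have hle : (y i : ℝ) ^ 2 + 2 * (y i) * w i ≤ 0 := by linarith
      -- in terms of `s * y i`
      obtain ⟨a, ha⟩ : ∃ a : ℤ, a = s * y i := ⟨_, rfl⟩
      have ha0 : a ≠ 0 := by
        rw [ha]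
        refine mul_ne_zero ?_ hyi
        rcases hs with rfl | rfl <;> norm_num
      have h1 : (a : ℝ) ^ 2 + 2 * a * |w i| ≤ 0 := by
        have hs2 : (s : ℝ) ^ 2 = 1 := by rcases hs with rfl | rfl <;> norm_num
        rw [ha, ← hsw]
        push_cast
        nlinarith
      rw [← ha]
      have h2 : a < 0 := by
        by_contra h3
        push Not at h3
        have h4 : (1 : ℝ) ≤ a := by
          have : 1 ≤ a := by omega
          exact_mod_cast this
        nlinarith [abs_nonneg (w i)]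
      have h3 : -3 < a := by
        by_contra h4
        push Not at h4
        have h5 : (a : ℝ) ≤ -3 := by exact_mod_cast h4
        nlinarith
      omega
    obtain ⟨p, hp⟩ : ∃ p, g / 2 = p + 2 := ⟨g / 2 - 2, by omega⟩
    rw [hp]
    refine ⟨Fin.cons ((1 : ℝ), fun l => if l = i then (s : ℝ) else 0)
      (Fin.cons ((1 : ℝ), fun l => if l = i then (s : ℝ) / 2 else 0)
        (fun _ => ((1 : ℝ), fun _ => (0 : ℝ)))), ?_, ?_⟩
    · rw [Fin.prod_univ_succ, Fin.prod_univ_succ]
      simp
    · intro y hy hy0 hle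
      rw [Fin.prod_univ_succ, Fin.prod_univ_succ]
      simp only [Fin.cons_zero, Fin.cons_succ]
      rcases hroot y hy hy0 hle with h | h
      · have h1 : aff ((1 : ℝ), fun l => if l = i then (s : ℝ) else 0) y = 0 := by
          have h2 : (s : ℝ) * (y i : ℝ) = -1 := by exact_mod_cast h
          simp [aff, h2]
        rw [h1, zero_mul]
      · have h1 : aff ((1 : ℝ), fun l => if l = i then (s : ℝ) / 2 else 0) y = 0 := by
          have h2 : (s : ℝ) * (y i : ℝ) = -2 := by exact_mod_cast h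
          have h3 : (s : ℝ) / 2 * (y i : ℝ) = -1 := by linarith
          simp [aff, h3]
        rw [h1, zero_mul, mul_zero]
  · -- all coordinates are at most one half
    push Not at hbig
    let σ : Fin g → ℤ := fun i => if 0 < w i then -1 else 1
    have hσ : ∀ i, σ i = 1 ∨ σ i = -1 := by
      intro i
      simp only [σ]
      split_ifs
      · exact Or.inr rfl
      · exact Or.inl rfl
    refine ⟨fun j => ((1 : ℝ), fun i => -(σ i : ℝ) / (2 * ((j : ℕ) + 1))), by simp, ?_⟩
    intro y hy hy0 hle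
    have hterm : ∀ j, 0 ≤ (y j : ℝ) ^ 2 + 2 * (y j) * w j := by
      intro j
      by_cases h0 : y j = 0
      · rw [h0]; simp
      · have h2 : (1 : ℝ) ≤ |(y j : ℝ)| := by
          have : 1 ≤ |y j| := Int.one_le_abs h0
          exact_mod_cast this
        have h3 : -(|(y j : ℝ)| * |w j|) ≤ (y j : ℝ) * w j := by
          rw [← abs_mul]
          exact neg_abs_le _
        rw [← sq_abs]
        have h5 := hbig j
        have := abs_nonneg (w j)
        nlinarith
    have hsum0 : ∑ i, ((y i : ℝ) ^ 2 + 2 * (y i) * w i) = 0 :=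
      le_antisymm hle (sum_nonneg fun i _ => hterm i)
    have hz : ∀ i, (y i : ℝ) ^ 2 + 2 * (y i) * w i = 0 := fun i =>
      (sum_eq_zero_iff_of_nonneg (fun i _ => hterm i)).1 hsum0 i (mem_univ i)
    -- the entries
    have hent : ∀ i, y i = 0 ∨ y i = σ i := by
      intro i
      by_cases h0 : y i = 0
      · exact Or.inl h0
      right
      have h1 : (y i : ℝ) ≠ 0 := by exact_mod_cast h0
      have h2 : (y i : ℝ) = -2 * w i := by
        have h3 := hz i
        have h4 : (y i : ℝ) * ((y i : ℝ) + 2 * w i) = 0 := by linarith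
        rcases mul_eq_zero.1 h4 with h5 | h5
        · exact absurd h5 h1
        · linarith
      have h3 := hbig i
      have h4 : |(y i : ℝ)| ≤ 1 := by
        rw [h2, abs_mul]
        norm_num
        linarith
      have h5 : |y i| ≤ 1 := by exact_mod_cast h4
      rw [abs_le] at h5
      simp only [σ]
      by_cases h6 : 0 < w i
      · rw [if_pos h6]
        have h7 : (y i : ℝ) < 0 := by rw [h2]; linarith
        have h8 : y i < 0 := by exact_mod_cast h7
        omega
      · rw [if_neg h6]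
        push Not at h6
        have h7 : 0 ≤ (y i : ℝ) := by rw [h2]; linarith
        have h8 : 0 ≤ y i := by exact_mod_cast h7
        omega
    -- the number of nonzero entries
    obtain ⟨c, hc⟩ : ∃ c : ℕ, c = (Finset.univ.filter fun i => y i ≠ 0).card := ⟨_, rfl⟩
    have hsq : ∀ i, σ i * y i = if y i ≠ 0 then 1 else 0 := by
      intro i
      by_cases h0 : y i = 0
      · simp [h0]
      · rw [if_pos h0]
        rcases hent i with h1 | h1
        · exact absurd h1 h0
        · rw [h1]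
          rcases hσ i with h2 | h2 <;> rw [h2] <;> norm_num
    have hcount : ∑ i, σ i * y i = (c : ℤ) := by
      simp only [hsq]
      rw [hc, Finset.sum_boole]
    have hcg : c ≤ g := by
      rw [hc]
      simpa using Finset.card_le_univ (Finset.univ.filter fun i => y i ≠ 0)
    have hc0 : c ≠ 0 := by
      rw [hc]
      intro h
      rw [Finset.card_eq_zero] at h
      apply hy0
      funext i
      by_contra h1
      have : i ∈ (∅ : Finset (Fin g)) := by
        rw [← h]
        exact Finset.mem_filter.2 ⟨mem_univ _, h1⟩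
      simp at this
    have hceven : Even (c : ℤ) := by
      rw [← hcount]
      have h1 : ∑ i, σ i * y i = ∑ i, y i + ∑ i, (σ i - 1) * y i := by
        rw [← sum_add_distrib]
        exact sum_congr rfl fun i _ => by ring
      rw [h1]
      refine hy.add ?_
      refine Finset.even_sum _ fun i _ => ?_
      rcases hσ i with h2 | h2
      · rw [h2]; simp
      · rw [h2]
        exact ⟨-y i, by ring⟩
    obtain ⟨q, hq⟩ : ∃ q : ℕ, c = 2 * q := by
      have : Even c := by exact_mod_cast hceven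
      obtain ⟨q, hq⟩ := this
      exact ⟨q, by omega⟩
    have hq1 : q - 1 < g / 2 := by omega
    refine Finset.prod_eq_zero (mem_univ (⟨q - 1, hq1⟩ : Fin (g / 2))) ?_
    unfold aff
    have h1 : ∑ i, -(σ i : ℝ) / (2 * (((⟨q - 1, hq1⟩ : Fin (g / 2)) : ℕ) + 1)) * (y i : ℝ) =
        -((∑ i, σ i * y i : ℤ) : ℝ) / (2 * q) := by
      have h2 : (((⟨q - 1, hq1⟩ : Fin (g / 2)) : ℕ) : ℝ) + 1 = q := by
        have h3 : q - 1 + 1 = q := by omega
        have : ((q - 1 : ℕ) : ℝ) + 1 = ((q - 1 + 1 : ℕ) : ℝ) := by push_cast; ring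
        simp only
        rw [this, h3]
      rw [h2]
      push_cast
      rw [← sum_neg_distrib, Finset.sum_div]
      exact sum_congr rfl fun i _ => by ring
    simp only
    rw [h1, hcount, hq]
    have hq0 : (q : ℝ) ≠ 0 := by
      have : q ≠ 0 := by omega
      exact_mod_cast this
    push_cast
    field_simp
    ring

/-- the direction of `D_g` -/
theorem goodD (hg : 4 ≤ g) (B : Matrix (Fin g) (Fin g) ℤ)
    (hB : ∀ y : Fin g → ℤ, (∃ n : Fin g → ℤ, B *ᵥ n = y) ↔ Even (∑ i, y i)) :
    ((B.map (Int.cast : ℤ → ℝ)).transpose * B.map (Int.cast : ℤ → ℝ)).PosDef ∧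
    ∀ x : Fin g → ℝ, ∃ u : Fin g → ℤ, ∃ f ∈ Poly ℝ g (g / 2), f u ≠ 0 ∧
      ∀ n, n ≠ u → qf ((B.map (Int.cast : ℤ → ℝ)).transpose * B.map (Int.cast : ℤ → ℝ))
        (zc n - x) ≤ qf ((B.map (Int.cast : ℤ → ℝ)).transpose * B.map (Int.cast : ℤ → ℝ))
        (zc u - x) → f n = 0 := by
  classical
  set BR : Matrix (Fin g) (Fin g) ℝ := B.map (Int.cast : ℤ → ℝ) with hBR
  -- `B` is invertible over the reals
  have hdet : BR.det ≠ 0 := by
    choose N hN using fun i : Fin g => (hB (Pi.single i 2)).2 (by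
      rw [Finset.sum_pi_single']
      simp)
    let N' : Matrix (Fin g) (Fin g) ℤ := Matrix.of fun i j => N j i
    have h1 : B * N' = (2 : ℤ) • (1 : Matrix (Fin g) (Fin g) ℤ) := by
      ext i j
      have h2 := congrFun (hN j) i
      rw [Matrix.mul_apply, Matrix.smul_apply, Matrix.one_apply]
      have h3 : ∑ l, B i l * N' l j = (B *ᵥ N j) i := rfl
      rw [h3, h2, Pi.single_apply]
      simp
    have h2 : B.det ≠ 0 := by
      intro h
      have h3 := congrArg Matrix.det h1
      rw [Matrix.det_mul, h, zero_mul, Matrix.det_smul, Matrix.det_one] at h3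
      simp only [Fintype.card_fin, mul_one] at h3
      exact pow_ne_zero g two_ne_zero h3.symm
    have h3 : BR.det = (B.det : ℝ) := (RingHom.map_det (Int.castRingHom ℝ) B).symm
    rw [h3]
    exact_mod_cast h2
  have hinj : ∀ x : Fin g → ℝ, BR *ᵥ x = 0 → x = 0 := fun x hx =>
    Matrix.eq_zero_of_mulVec_eq_zero hdet hx
  have hpd : (BR.transpose * BR).PosDef := by
    refine Matrix.PosDef.of_dotProduct_mulVec_pos ?_ ?_
    · unfold Matrix.IsHermitian
      rw [Matrix.conjTranspose_eq_transpose_of_trivial, Matrix.transpose_mul,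
        Matrix.transpose_transpose]
    · intro x hx
      rw [star_trivial]
      have h1 := qf_map B x
      unfold qf at h1
      rw [h1]
      obtain ⟨i, hi⟩ : ∃ i, (BR *ᵥ x) i ≠ 0 := by
        by_contra hcon
        push Not at hcon
        exact hx (hinj x (funext hcon))
      exact sum_pos' (fun i _ => sq_nonneg _) ⟨i, mem_univ _, by positivity⟩
  refine ⟨hpd, ?_⟩
  have hsymm : (BR.transpose * BR).transpose = BR.transpose * BR := by
    rw [Matrix.transpose_mul, Matrix.transpose_transpose]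
  intro x
  obtain ⟨u, hu⟩ := exists_nearest hpd hsymm x
  obtain ⟨w, hw⟩ : ∃ w : Fin g → ℝ, w = BR *ᵥ (zc u - x) := ⟨_, rfl⟩
  have hBz : ∀ n : Fin g → ℤ, BR *ᵥ zc n = fun i => (((B *ᵥ n) i : ℤ) : ℝ) := by
    intro n
    funext i
    simp only [Matrix.mulVec, dotProduct, hBR, Matrix.map_apply, zc]
    push_cast
    rfl
  have hdiff : ∀ n : Fin g → ℤ, qf (BR.transpose * BR) (zc n - x) -
      qf (BR.transpose * BR) (zc u - x) =
      ∑ i, ((((B *ᵥ (n - u)) i : ℤ) : ℝ) ^ 2 + 2 * (((B *ᵥ (n - u)) i : ℤ) : ℝ) * w i) := by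
    intro n
    rw [diff_eq hsymm, qf_map, hBz, ← Matrix.mulVec_mulVec, Matrix.dotProduct_mulVec,
      Matrix.vecMul_transpose, hBz, ← hw]
    simp only [dotProduct]
    rw [mul_sum, ← sum_add_distrib]
    exact sum_congr rfl fun i _ => by ring
  have hmin : ∀ y : Fin g → ℤ, Even (∑ i, y i) →
      0 ≤ ∑ i, ((y i : ℝ) ^ 2 + 2 * (y i) * w i) := by
    intro y hy
    obtain ⟨k, hk⟩ := (hB y).2 hy
    have h1 := hdiff (k + u)
    rw [add_sub_cancel_right, hk] at h1
    rw [← h1]
    linarith [hu (k + u)]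
  obtain ⟨l, hl1, hl⟩ := isolD hg w hmin
  -- the polynomial
  refine ⟨u, fun n => ∏ j, aff (l j) (B *ᵥ (n - u)), ?_, ?_, ?_⟩
  · -- it is a polynomial
    refine Submodule.subset_span ⟨fun j => ((l j).1 - ∑ i, (l j).2 i * (((B *ᵥ u) i : ℤ) : ℝ),
      fun a => ∑ i, (l j).2 i * (B i a : ℝ)), ?_⟩
    funext n
    refine Finset.prod_congr rfl fun j _ => ?_
    have h1 : ∑ a, (∑ i, (l j).2 i * (B i a : ℝ)) * (n a : ℝ) =
        ∑ i, (l j).2 i * (((B *ᵥ n) i : ℤ) : ℝ) := by
      have h2 : ∀ i, (((B *ᵥ n) i : ℤ) : ℝ) = ∑ a, (B i a : ℝ) * (n a : ℝ) := by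
        intro i
        simp only [Matrix.mulVec, dotProduct]
        push_cast
        rfl
      simp only [h2, mul_sum, sum_mul]
      rw [Finset.sum_comm]
      exact sum_congr rfl fun i _ => sum_congr rfl fun a _ => by ring
    simp only [aff]
    rw [h1, Matrix.mulVec_sub]
    simp only [Pi.sub_apply, Int.cast_sub, mul_sub, sum_sub_distrib]
    ring
  · have h1 : ∀ j, aff (l j) (B *ᵥ (u - u)) = (l j).1 := by
      intro j
      rw [sub_self, Matrix.mulVec_zero]
      simp [aff]
    simp only [h1, hl1]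
    exact one_ne_zero
  · intro n hn hq
    refine hl (B *ᵥ (n - u)) ((hB _).1 ⟨n - u, rfl⟩) ?_ ?_
    · intro h
      apply hn
      rw [← sub_eq_zero]
      have h1 := hinj (zc (n - u)) (by
        rw [hBz, h]
        funext i
        simp)
      funext i
      have h2 : (((n - u) i : ℤ) : ℝ) = 0 := congrFun h1 i
      exact_mod_cast h2
    · rw [← hdiff]
      linarith

end Pool.TCD
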