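import Pool.Agent.Work.MP_29fd3c_th.Norm
import Pool.Agent.Work.MP_29fd3c_tk.POIX

/-!
# Polynomial functions on `ℤ ^ g` and derivatives of theta functions
-/

set_option autoImplicit false

namespace Pool.TCD

open Finset Complex Pool.TH

variable {g : ℕ}

/-- the value of an affine form at an integral vector -/
def aff {R : Type*} [CommRing R] (l : R × (Fin g → R)) (n : Fin g → ℤ) : R :=
  l.1 + ∑ i, l.2 i * (n i : R)

/-- functions which are combinations of products of `d` affine forms -/
def Poly (R : Type*) [CommRing R] (g d : ℕ) : Submodule R ((Fin g → ℤ) → R) :=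
  Submodule.span R {f | ∃ l : Fin d → R × (Fin g → R), f = fun n => ∏ j, aff (l j) n}

section ring

variable {R : Type*} [CommRing R]

theorem mul_aff {d : ℕ} {f : (Fin g → ℤ) → R} (hf : f ∈ Poly R g d) (l : R × (Fin g → R)) :
    (fun n => aff l n * f n) ∈ Poly R g (d + 1) := by
  refine Submodule.span_induction (p := fun f _ => (fun n => aff l n * f n) ∈ Poly R g (d + 1))
    ?_ ?_ ?_ ?_ hf
  · rintro _ ⟨l', rfl⟩
    refine Submodule.subset_span ⟨Fin.cons l l', ?_⟩
    funext n
    rw [Fin.prod_univ_succ]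
    simp
  · simp only [Pi.zero_apply, mul_zero]
    exact Submodule.zero_mem _
  · intro a b _ _ ha hb
    have : (fun n => aff l n * (a + b) n) = (fun n => aff l n * a n) + fun n => aff l n * b n := by
      funext n
      simp [mul_add]
    rw [this]
    exact Submodule.add_mem _ ha hb
  · intro c a _ ha
    have : (fun n => aff l n * (c • a) n) = c • fun n => aff l n * a n := by
      funext n
      simp
      ring
    rw [this]
    exact Submodule.smul_mem _ _ ha

theorem poly_mono_succ {d : ℕ} {f : (Fin g → ℤ) → R} (hf : f ∈ Poly R g d) :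
    f ∈ Poly R g (d + 1) := by
  have := mul_aff hf ((1 : R), fun _ => (0 : R))
  simpa [aff] using this

theorem poly_mono {d e : ℕ} (h : d ≤ e) {f : (Fin g → ℤ) → R} (hf : f ∈ Poly R g d) :
    f ∈ Poly R g e := by
  induction e, h using Nat.le_induction with
  | base => exact hf
  | succ e _ ih => exact poly_mono_succ ih

theorem const_mem (d : ℕ) (c : R) : (fun _ => c) ∈ Poly R g d := by
  have h0 : (fun _ => c) ∈ Poly R g 0 := by
    have h1 : (fun _ => (1 : R)) ∈ Poly R g 0 :=
      Submodule.subset_span ⟨fun j => j.elim0, by funext n; simp⟩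
    have := Submodule.smul_mem _ c h1
    have e : (c • fun _ : Fin g → ℤ => (1 : R)) = fun _ => c := by
      funext n; simp
    rwa [e] at this
  exact poly_mono (Nat.zero_le d) h0

theorem coord_mul {d : ℕ} {f : (Fin g → ℤ) → R} (hf : f ∈ Poly R g d) (i : Fin g) :
    (fun n => (n i : R) * f n) ∈ Poly R g (d + 1) := by
  have := mul_aff hf ((0 : R), Pi.single i (1 : R))
  have e : (fun n => aff ((0 : R), Pi.single i (1 : R)) n * f n) = fun n => (n i : R) * f n := by
    funext n
    simp [aff, Pi.single_apply]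
  rwa [e] at this

theorem poly_translate {d : ℕ} {f : (Fin g → ℤ) → R} (hf : f ∈ Poly R g d) (k : Fin g → ℤ) :
    (fun n => f (n + k)) ∈ Poly R g d := by
  refine Submodule.span_induction (p := fun f _ => (fun n => f (n + k)) ∈ Poly R g d)
    ?_ ?_ ?_ ?_ hf
  · rintro _ ⟨l, rfl⟩
    refine Submodule.subset_span ⟨fun j => ((l j).1 + ∑ i, (l j).2 i * (k i : R), (l j).2), ?_⟩
    funext n
    refine Finset.prod_congr rfl fun j _ => ?_
    simp only [aff, Pi.add_apply, Int.cast_add, mul_add, Finset.sum_add_distrib]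
    ring
  · exact Submodule.zero_mem _
  · intro a b _ _ ha hb
    exact Submodule.add_mem _ ha hb
  · intro c a _ ha
    exact Submodule.smul_mem _ _ ha

end ring

theorem poly_cast {d : ℕ} {f : (Fin g → ℤ) → ℤ} (hf : f ∈ Poly ℤ g d) :
    (fun n => (f n : ℝ)) ∈ Poly ℝ g d := by
  refine Submodule.span_induction (p := fun f _ => (fun n => ((f n : ℤ) : ℝ)) ∈ Poly ℝ g d)
    ?_ ?_ ?_ ?_ hf
  · rintro _ ⟨l, rfl⟩
    refine Submodule.subset_span ⟨fun j => (((l j).1 : ℝ), fun i => ((l j).2 i : ℝ)), ?_⟩
    funext n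
    simp [aff]
  · simp only [Pi.zero_apply, Int.cast_zero]
    exact Submodule.zero_mem _
  · intro a b _ _ ha hb
    have : (fun n => (((a + b) n : ℤ) : ℝ)) = (fun n => ((a n : ℤ) : ℝ)) + fun n => ((b n : ℤ) : ℝ) := by
      funext n; simp
    rw [this]
    exact Submodule.add_mem _ ha hb
  · intro c a _ ha
    have : (fun n => (((c • a) n : ℤ) : ℝ)) = (c : ℝ) • fun n => ((a n : ℤ) : ℝ) := by
      funext n; simp
    rw [this]
    exact Submodule.smul_mem _ _ ha

/-- polynomials of degree at most `d` -/
theorem poly_of_mv {d : ℕ} (p : MvPolynomial (Fin g) ℝ) (hp : p.totalDegree ≤ d) :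
    (fun n : Fin g → ℤ => MvPolynomial.eval (fun i => (n i : ℝ)) p) ∈ Poly ℝ g d := by
  have hmono : ∀ (s : Fin g →₀ ℕ) (e : ℕ), (s.sum fun _ a => a) ≤ e →
      (fun n : Fin g → ℤ => s.prod fun i a => (n i : ℝ) ^ a) ∈ Poly ℝ g e := by
    intro s
    induction s using Finsupp.induction_linear with
    | zero =>
      intro e _
      simpa using const_mem (g := g) (R := ℝ) e 1
    | add a b iha ihb =>
      intro e he
      rw [Finsupp.sum_add_index' (fun _ => rfl) (fun _ _ _ => rfl)] at he
      -- product of two polynomial functions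
      have hmul : ∀ (x y : ℕ) (u v : (Fin g → ℤ) → ℝ), u ∈ Poly ℝ g x → v ∈ Poly ℝ g y →
          (fun n => u n * v n) ∈ Poly ℝ g (x + y) := by
        intro x y u v hu hv
        refine Submodule.span_induction
          (p := fun u _ => (fun n => u n * v n) ∈ Poly ℝ g (x + y)) ?_ ?_ ?_ ?_ hu
        · rintro _ ⟨l, rfl⟩
          refine Submodule.span_induction
            (p := fun v _ => (fun n => (∏ j, aff (l j) n) * v n) ∈ Poly ℝ g (x + y)) ?_ ?_ ?_ ?_ hv
          · rintro _ ⟨l', rfl⟩
            refine Submodule.subset_span ⟨Fin.append l l', ?_⟩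
            funext n
            rw [Fin.prod_univ_add]
            simp
          · simp only [Pi.zero_apply, mul_zero]
            exact Submodule.zero_mem _
          · intro a b _ _ ha hb
            have : (fun n => (∏ j, aff (l j) n) * (a + b) n) =
                (fun n => (∏ j, aff (l j) n) * a n) + fun n => (∏ j, aff (l j) n) * b n := by
              funext n
              simp [mul_add]
            rw [this]
            exact Submodule.add_mem _ ha hb
          · intro c a _ ha
            have : (fun n => (∏ j, aff (l j) n) * (c • a) n) =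
                c • fun n => (∏ j, aff (l j) n) * a n := by
              funext n
              simp
              ring
            rw [this]
            exact Submodule.smul_mem _ _ ha
        · simp only [Pi.zero_apply, zero_mul]
          exact Submodule.zero_mem _
        · intro a b _ _ ha hb
          have : (fun n => (a + b) n * v n) = (fun n => a n * v n) + fun n => b n * v n := by
            funext n
            simp [add_mul]
          rw [this]
          exact Submodule.add_mem _ ha hb
        · intro c a _ ha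
          have : (fun n => (c • a) n * v n) = c • fun n => a n * v n := by
            funext n
            simp
            ring
          rw [this]
          exact Submodule.smul_mem _ _ ha
      have h1 := hmul _ _ _ _ (iha _ le_rfl) (ihb _ le_rfl)
      refine poly_mono he ?_
      convert h1 using 2 with n
      rw [Finsupp.prod_add_index' (fun _ => pow_zero _) (fun _ _ _ => pow_add _ _ _)]
    | single i a =>
      intro e he
      rw [Finsupp.sum_single_index rfl] at he
      refine poly_mono he ?_
      have h1 : (fun n : Fin g → ℤ => (Finsupp.single i a).prod fun i a => (n i : ℝ) ^ a) =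
          fun n => (n i : ℝ) ^ a := by
        funext n
        exact Finsupp.prod_single_index (pow_zero _)
      rw [h1]
      clear h1 he
      induction a with
      | zero => simpa using const_mem (g := g) (R := ℝ) 0 1
      | succ a ih =>
        have := coord_mul ih i
        convert this using 2 with n
        ring
  have h1 : (fun n : Fin g → ℤ => MvPolynomial.eval (fun i => (n i : ℝ)) p) =
      ∑ s ∈ p.support, (p.coeff s) • fun n : Fin g → ℤ => s.prod fun i a => (n i : ℝ) ^ a := by
    funext n
    rw [MvPolynomial.eval_eq']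
    rw [Finset.sum_apply]
    refine Finset.sum_congr rfl fun s _ => ?_
    simp only [Pi.smul_apply, smul_eq_mul]
    congr 1
    rw [Finsupp.prod_fintype]
    intro i
    exact pow_zero _
  rw [h1]
  refine Submodule.sum_mem _ fun s hs => Submodule.smul_mem _ _ ?_
  exact hmono s d ((MvPolynomial.le_totalDegree hs).trans hp)

theorem aff_bound (l : ℝ × (Fin g → ℝ)) (n : Fin g → ℤ) :
    |aff l n| ≤ (|l.1| + ∑ i, |l.2 i|) * Real.exp (N1 n) := by
  have h4 : N1 n + 1 ≤ Real.exp (N1 n) := Real.add_one_le_exp _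
  have h5 := N1_nonneg n
  have h6 : |∑ i, l.2 i * (n i : ℝ)| ≤ (∑ i, |l.2 i|) * N1 n := by
    refine (abs_sum_le_sum_abs _ _).trans ?_
    rw [Finset.sum_mul]
    refine sum_le_sum fun i _ => ?_
    rw [abs_mul]
    exact mul_le_mul_of_nonneg_left (single_le_sum (f := fun i => |(n i : ℝ)|)
      (fun _ _ => abs_nonneg _) (mem_univ i)) (abs_nonneg _)
  have h7 : 0 ≤ ∑ i, |l.2 i| := sum_nonneg fun _ _ => abs_nonneg _
  have h8 := abs_nonneg l.1
  unfold aff
  refine (abs_add_le _ _).trans ?_
  nlinarith

theorem poly_bound' {d : ℕ} {f : (Fin g → ℤ) → ℝ} (hf : f ∈ Poly ℝ g d) :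
    ∃ M : ℝ, 0 ≤ M ∧ ∀ n, |f n| ≤ M * Real.exp (d * N1 n) := by
  refine Submodule.span_induction
    (p := fun f _ => ∃ M : ℝ, 0 ≤ M ∧ ∀ n, |f n| ≤ M * Real.exp (d * N1 n)) ?_ ?_ ?_ ?_ hf
  · rintro _ ⟨l, rfl⟩
    refine ⟨∏ j, (|(l j).1| + ∑ i, |(l j).2 i|), prod_nonneg fun j _ => by positivity, fun n => ?_⟩
    rw [Finset.abs_prod]
    refine (prod_le_prod (fun _ _ => abs_nonneg _) fun j _ => aff_bound (l j) n).trans ?_
    rw [prod_mul_distrib, prod_const, card_univ, Fintype.card_fin, ← Real.exp_nat_mul]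
  · exact ⟨0, le_rfl, fun n => by simp⟩
  · rintro a b _ _ ⟨M, hM, ha⟩ ⟨M', hM', hb⟩
    refine ⟨M + M', by positivity, fun n => ?_⟩
    rw [add_mul]
    exact (abs_add_le _ _).trans (add_le_add (ha n) (hb n))
  · rintro c a _ ⟨M, hM, ha⟩
    refine ⟨|c| * M, by positivity, fun n => ?_⟩
    rw [Pi.smul_apply, smul_eq_mul, abs_mul, mul_assoc]
    exact mul_le_mul_of_nonneg_left (ha n) (abs_nonneg _)

theorem poly_summable {τ : Matrix (Fin g) (Fin g) ℂ} {z : Fin g → ℂ} (hD : Dom τ z) {d : ℕ}
    {f : (Fin g → ℤ) → ℝ} (hf : f ∈ Poly ℝ g d) :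
    Summable fun n : Fin g → ℤ => (f n : ℂ) * term τ z n := by
  obtain ⟨M, hM, hb⟩ := poly_bound' hf
  refine Summable.of_norm_bounded ((hD (d : ℝ)).mul_left M) fun n => ?_
  rw [norm_mul, Complex.norm_real, Real.norm_eq_abs]
  calc |f n| * ‖term τ z n‖ ≤ (M * Real.exp (d * N1 n)) * ‖term τ z n‖ :=
        mul_le_mul_of_nonneg_right (hb n) (norm_nonneg _)
    _ = M * (‖term τ z n‖ * Real.exp (d * N1 n)) := by ring

/-- vanishing of the derivatives in terms of the series -/
theorem der_poly {τ : Matrix (Fin g) (Fin g) ℂ} {z : Fin g → ℂ} (hD : Dom τ z) {d : ℕ}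
    (h : ∀ k ≤ d, iteratedFDeriv ℂ k (theta τ) z = 0) {f : (Fin g → ℤ) → ℝ}
    (hf : f ∈ Poly ℝ g d) : ∑' n : Fin g → ℤ, (f n : ℂ) * term τ z n = 0 := by
  classical
  refine Submodule.span_induction
    (p := fun f _ => ∑' n : Fin g → ℤ, (f n : ℂ) * term τ z n = 0) ?_ ?_ ?_ ?_ hf
  · rintro _ ⟨l, rfl⟩
    -- products of linear forms
    have key : ∀ S : Finset (Fin d), ∑' n : Fin g → ℤ,
        (∏ j ∈ S, ((∑ i, (l j).2 i * (n i : ℝ) : ℝ) : ℂ)) * term τ z n = 0 := by
      intro S
      have hS : S.card ≤ d := by simpa using Finset.card_le_univ S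
      have h1 := iter_eq hD S.card
        (fun a => fun i => (((l (S.equivFin.symm a : Fin d)).2 i : ℝ) : ℂ))
      rw [h _ hS] at h1
      have h2 : ∀ (n : Fin g → ℤ), ∏ a : Fin S.card,
          L n (fun i => (((l (S.equivFin.symm a : Fin d)).2 i : ℝ) : ℂ)) =
          (2 * Real.pi * Complex.I) ^ S.card *
            ∏ j ∈ S, ((∑ i, (l j).2 i * (n i : ℝ) : ℝ) : ℂ) := by
        intro n
        have h3 : ∀ j : Fin d, L n (fun i => (((l j).2 i : ℝ) : ℂ)) =
            2 * Real.pi * Complex.I * ((∑ i, (l j).2 i * (n i : ℝ) : ℝ) : ℂ) := by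
          intro j
          rw [L_apply]
          congr 1
          push_cast
          exact sum_congr rfl fun i _ => by ring
        simp only [h3]
        rw [prod_mul_distrib, prod_const, card_univ, Fintype.card_fin]
        congr 1
        rw [Equiv.prod_comp S.equivFin.symm
          (fun j : S => ((∑ i, (l (j : Fin d)).2 i * (n i : ℝ) : ℝ) : ℂ))]
        exact prod_coe_sort S (fun j => ((∑ i, (l j).2 i * (n i : ℝ) : ℝ) : ℂ))
      simp only [h2] at h1
      have h4 : (0 : ℂ) = (2 * Real.pi * Complex.I) ^ S.card *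
          ∑' n : Fin g → ℤ, (∏ j ∈ S, ((∑ i, (l j).2 i * (n i : ℝ) : ℝ) : ℂ)) * term τ z n := by
        rw [← tsum_mul_left]
        have h5 : (0 : ℂ) = ∑' n : Fin g → ℤ, term τ z n *
            ((2 * Real.pi * Complex.I) ^ S.card *
              ∏ j ∈ S, ((∑ i, (l j).2 i * (n i : ℝ) : ℝ) : ℂ)) := h1
        rw [h5]
        exact tsum_congr (fun n => by ring)
      have h6 : ((2 * Real.pi * Complex.I : ℂ)) ^ S.card ≠ 0 := pow_ne_zero _ (by
        simp [Real.pi_ne_zero])
      exact (mul_eq_zero.1 h4.symm).resolve_left h6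
    have hsum : ∀ S : Finset (Fin d), Summable fun n : Fin g → ℤ =>
        (∏ j ∈ S, ((∑ i, (l j).2 i * (n i : ℝ) : ℝ) : ℂ)) * term τ z n := by
      intro S
      have h1 : (fun n : Fin g → ℤ => ∏ j : Fin d,
          aff (if j ∈ S then ((0 : ℝ), (l j).2) else ((1 : ℝ), fun _ => (0 : ℝ))) n) ∈
          Poly ℝ g d := Submodule.subset_span ⟨_, rfl⟩
      refine (poly_summable hD h1).congr fun n => ?_
      congr 1
      have h2 : ∏ j : Fin d,
          aff (if j ∈ S then ((0 : ℝ), (l j).2) else ((1 : ℝ), fun _ => (0 : ℝ))) n =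
          ∏ j ∈ S, (∑ i, (l j).2 i * (n i : ℝ)) := by
        rw [← Finset.prod_subset (Finset.subset_univ S)]
        · refine Finset.prod_congr rfl fun j hj => ?_
          rw [if_pos hj]
          simp [aff]
        · intro j _ hj
          rw [if_neg hj]
          simp [aff]
      rw [h2]
      push_cast
      rfl
    have h1 : ∀ n : Fin g → ℤ, ((∏ j, aff (l j) n : ℝ) : ℂ) * term τ z n =
        ∑ S ∈ (Finset.univ : Finset (Fin d)).powerset,
          ((∏ j ∈ S, (((l j).1 : ℝ) : ℂ))) *
            ((∏ j ∈ Finset.univ \ S, ((∑ i, (l j).2 i * (n i : ℝ) : ℝ) : ℂ)) * term τ z n) := by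
      intro n
      have h2 : ((∏ j, aff (l j) n : ℝ) : ℂ) =
          ∏ j, ((((l j).1 : ℝ) : ℂ) + ((∑ i, (l j).2 i * (n i : ℝ) : ℝ) : ℂ)) := by
        push_cast [aff]
        rfl
      rw [h2, prod_add, sum_mul]
      exact sum_congr rfl fun S _ => by ring
    have h3 : (∑' n : Fin g → ℤ, ((∏ j, aff (l j) n : ℝ) : ℂ) * term τ z n) = 0 := by
      simp only [h1]
      rw [Summable.tsum_finsetSum]
      · refine sum_eq_zero (fun S _ => ?_)
        rw [tsum_mul_left, key _, mul_zero]
      · intro S _
        exact Summable.mul_left _ (hsum _)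
    exact h3
  · simp
  · intro a b ha' hb' ha hb
    have hsa := poly_summable hD ha'
    have hsb := poly_summable hD hb'
    have e : (fun n : Fin g → ℤ => (((a + b) n : ℝ) : ℂ) * term τ z n) =
        fun n => ((a n : ℝ) : ℂ) * term τ z n + ((b n : ℝ) : ℂ) * term τ z n := by
      funext n
      rw [Pi.add_apply]
      push_cast
      ring
    rw [e, hsa.tsum_add hsb, ha, hb, add_zero]
  · intro c a _ ha
    have e : (fun n : Fin g → ℤ => (((c • a) n : ℝ) : ℂ) * term τ z n) =
        fun n => (c : ℂ) * (((a n : ℝ) : ℂ) * term τ z n) := by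
      funext n
      rw [Pi.smul_apply, smul_eq_mul]
      push_cast
      ring
    rw [e, tsum_mul_left, ha, mul_zero]

end Pool.TCD
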