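import Pool.Agent.Work.MP_29fd3c_cd.PartB2

/-!
# Totally unimodular matrices have the conformal property
-/

set_option autoImplicit false

namespace Pool.TCD

open Finset Complex Matrix Pool.TH Pool.TK

variable {g : ℕ} {ι : Type} [Fintype ι]

theorem span_top (s : Set (Fin g → ℝ))
    (h : ∀ y : Fin g → ℝ, (∀ v ∈ s, v ⬝ᵥ y = 0) → y = 0) : Submodule.span ℝ s = ⊤ := by
  by_contra hcon
  obtain ⟨f, hf, hle⟩ := Submodule.exists_le_ker_of_lt_top _ (lt_top_iff_ne_top.2 hcon)
  apply hf
  have hfv : ∀ v : Fin g → ℝ, f v = v ⬝ᵥ (fun i => f fun j => if i = j then 1 else 0) := by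
    intro v
    rw [LinearMap.pi_apply_eq_sum_univ f v]
    rfl
  have hy := h (fun i => f fun j => if i = j then 1 else 0) (fun v hv => by
    rw [← hfv]
    exact hle (Submodule.subset_span hv))
  refine LinearMap.ext fun v => ?_
  rw [hfv, hy, dotProduct_zero]
  rfl

theorem rhat_dot (v : ι → Fin g → ℤ) (x : Fin g → ℝ) (e : ι) :
    (fun i => (v e i : ℝ)) ⬝ᵥ x = rhat v x e := rfl

theorem rhat_smul (v : ι → Fin g → ℤ) (a : ℝ) (x : Fin g → ℝ) (e : ι) :
    rhat v (a • x) e = a * rhat v x e := by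
  unfold rhat
  rw [mul_sum]
  exact sum_congr rfl fun i _ => by simp; ring

theorem tu_conf (V : ι → Fin g → ℤ) (hV : (Matrix.of V).IsTotallyUnimodular)
    (hinj : ∀ x : Fin g → ℝ, (∀ e, rhat V x e = 0) → x = 0) (n : Fin g → ℤ) (hn : n ≠ 0) :
    ∃ k : Fin g → ℤ, k ≠ 0 ∧ ∀ e, |hat V k e| ≤ 1 ∧
      (hat V k e ≠ 0 → 0 < hat V k e * hat V n e) := by
  classical
  let W : Set (Fin g → ℝ) :=
    {x | x ≠ 0 ∧ ∀ e, rhat V x e ≠ 0 → 0 < rhat V x e * (hat V n e : ℝ)}
  let c : (Fin g → ℝ) → ℕ := fun x => (univ.filter fun e => rhat V x e ≠ 0).card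
  have hne : W.Nonempty := by
    refine ⟨zc n, ?_, fun e he => ?_⟩
    · intro h
      apply hn
      funext i
      have := congrFun h i
      simpa [zc] using this
    · rw [rhat_zc] at he ⊢
      exact mul_self_pos.2 he
  obtain ⟨x, hx, hmin⟩ := (measure c).wf.has_min W hne
  -- the support is minimal
  have hclaim : ∀ y : Fin g → ℝ, (∀ e, rhat V x e = 0 → rhat V y e = 0) →
      ∃ a : ℝ, y = a • x := by
    intro y hy
    by_cases hy0 : ∀ e, rhat V y e = 0
    · exact ⟨0, by rw [hinj y hy0]; simp⟩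
    push Not at hy0
    obtain ⟨e₀, he₀⟩ := hy0
    obtain ⟨e₁, -, he₁⟩ := Finset.exists_max_image univ
      (fun e => |rhat V y e / rhat V x e|) ⟨e₀, mem_univ _⟩
    have hx0 : rhat V x e₀ ≠ 0 := fun h => he₀ (hy e₀ h)
    have hpos : 0 < |rhat V y e₁ / rhat V x e₁| :=
      lt_of_lt_of_le (abs_pos.2 (div_ne_zero he₀ hx0)) (he₁ e₀ (mem_univ _))
    obtain ⟨r, hr⟩ : ∃ r, r = rhat V y e₁ / rhat V x e₁ := ⟨_, rfl⟩
    rw [← hr] at hpos
    have hr0 : r ≠ 0 := abs_pos.1 hpos
    have hxe₁ : rhat V x e₁ ≠ 0 := by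
      intro h
      rw [hr, h, div_zero] at hr0
      exact hr0 rfl
    refine ⟨r, ?_⟩
    by_contra hne'
    have hlin : ∀ e, rhat V (x - r⁻¹ • y) e = rhat V x e - r⁻¹ * rhat V y e := by
      intro e
      rw [rhat_sub, rhat_smul]
    have hx' : x - r⁻¹ • y ∈ W := by
      refine ⟨?_, ?_⟩
      · intro h
        apply hne'
        have h1 : x = r⁻¹ • y := sub_eq_zero.1 h
        rw [h1, smul_smul, mul_inv_cancel₀ hr0, one_smul]
      · intro e he
        by_cases hxe : rhat V x e = 0
        · exfalso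
          apply he
          rw [hlin, hxe, hy e hxe, mul_zero, sub_zero]
        · have h1 : rhat V (x - r⁻¹ • y) e =
              rhat V x e * (1 - r⁻¹ * (rhat V y e / rhat V x e)) := by
            rw [hlin]
            field_simp
          have h2 : 0 ≤ 1 - r⁻¹ * (rhat V y e / rhat V x e) := by
            have h3 : |r⁻¹ * (rhat V y e / rhat V x e)| ≤ 1 := by
              rw [abs_mul, abs_inv, inv_mul_le_iff₀ hpos, mul_one]
              have := he₁ e (mem_univ _)
              rw [← hr] at this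
              exact this
            linarith [le_abs_self (r⁻¹ * (rhat V y e / rhat V x e))]
          have h3 := hx.2 e hxe
          rw [h1] at he ⊢
          have h4 : 0 < 1 - r⁻¹ * (rhat V y e / rhat V x e) :=
            lt_of_le_of_ne h2 (fun h => he (by rw [← h, mul_zero]))
          have h5 := mul_pos h4 h3
          linarith
    have hlt : c (x - r⁻¹ • y) < c x := by
      refine Finset.card_lt_card ?_
      rw [Finset.ssubset_iff_of_subset]
      · refine ⟨e₁, by simpa using hxe₁, ?_⟩
        simp only [mem_filter, mem_univ, true_and, not_not]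
        rw [hlin, hr]
        have hy1 : rhat V y e₁ ≠ 0 := by
          intro h
          rw [hr, h, zero_div] at hr0
          exact hr0 rfl
        field_simp
        ring
      · intro e he
        simp only [mem_filter, mem_univ, true_and] at he ⊢
        intro h
        apply he
        rw [hlin, h, hy e h, mul_zero, sub_zero]
    exact hmin _ hx' hlt
  -- rows
  obtain ⟨e₁, he₁⟩ : ∃ e, rhat V x e ≠ 0 := by
    by_contra hcon
    push Not at hcon
    exact hx.1 (hinj x hcon)
  let s : Set (Fin g → ℝ) := {v | ∃ e, (rhat V x e = 0 ∨ e = e₁) ∧ v = fun i => (V e i : ℝ)}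
  have hs : Submodule.span ℝ s = ⊤ := span_top s (by
    intro y hy
    obtain ⟨a, ha⟩ := hclaim y (fun e he => hy _ ⟨e, Or.inl he, rfl⟩)
    have h1 := hy _ ⟨e₁, Or.inr rfl, rfl⟩
    rw [rhat_dot, ha, rhat_smul] at h1
    rw [ha, (mul_eq_zero.1 h1).resolve_right he₁, zero_smul])
  obtain ⟨f, hfs, hfspan, hfind⟩ := Submodule.exists_fun_fin_finrank_span_eq ℝ s
  have hfr : Module.finrank ℝ (Submodule.span ℝ s) = g := by
    rw [hs, finrank_top]
    simp
  let f' : Fin g → (Fin g → ℝ) := f ∘ Fin.cast hfr.symm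
  have hind : LinearIndependent ℝ f' := hfind.comp _ (Fin.cast_injective _)
  have hf' : ∀ i, ∃ e, (rhat V x e = 0 ∨ e = e₁) ∧ f' i = fun i => (V e i : ℝ) := fun i => hfs _
  choose E hE hfE using hf'
  let B : Matrix (Fin g) (Fin g) ℤ := (Matrix.of V).submatrix E id
  let BR : Matrix (Fin g) (Fin g) ℝ := B.map (Int.cast : ℤ → ℝ)
  have hdetR : BR.det ≠ 0 := by
    have h1 : BR.row = f' := by
      funext i
      rw [hfE i]
      rfl
    have h2 : IsUnit BR := Matrix.linearIndependent_rows_iff_isUnit.1 (by rw [h1]; exact hind)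
    exact ((Matrix.isUnit_iff_isUnit_det _).1 h2).ne_zero
  have hdetBR : BR.det = (B.det : ℝ) := by
    have := (RingHom.map_det (Int.castRingHom ℝ) B).symm
    exact this
  have hBx : ∀ i, (BR *ᵥ x) i = rhat V x (E i) := fun i => rfl
  obtain ⟨i₁, hi₁⟩ : ∃ i, E i = e₁ := by
    by_contra hcon
    push Not at hcon
    apply hx.1
    refine Matrix.eq_zero_of_mulVec_eq_zero hdetR ?_
    funext i
    rw [hBx]
    exact (hE i).resolve_right (hcon i)
  have huniq : ∀ i, i ≠ i₁ → rhat V x (E i) = 0 := by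
    intro i hi
    refine (hE i).resolve_right fun h => hi ?_
    apply hind.injective
    rw [hfE i, hfE i₁, h, hi₁]
  let k' : Fin g → ℤ := fun j => B.adjugate j i₁
  have hBk : ∀ i, ∑ j, B i j * k' j = if i = i₁ then B.det else 0 := by
    intro i
    have := congrFun (congrFun (Matrix.mul_adjugate B) i) i₁
    rw [Matrix.mul_apply, Matrix.smul_apply, Matrix.one_apply, smul_eq_mul] at this
    rw [this]
    split_ifs <;> simp
  obtain ⟨a, ha⟩ : ∃ a : ℝ, a = (B.det : ℝ) / rhat V x e₁ := ⟨_, rfl⟩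
  have ha0 : a ≠ 0 := by
    rw [ha]
    refine div_ne_zero ?_ he₁
    rw [← hdetBR]
    exact hdetR
  have hk'x : zc k' = a • x := by
    rw [← sub_eq_zero]
    refine Matrix.eq_zero_of_mulVec_eq_zero hdetR ?_
    rw [Matrix.mulVec_sub, Matrix.mulVec_smul]
    funext i
    rw [Pi.sub_apply, Pi.smul_apply, hBx, smul_eq_mul]
    have h1 : (BR *ᵥ zc k') i = ((∑ j, B i j * k' j : ℤ) : ℝ) := by
      simp only [Matrix.mulVec, dotProduct, BR, Matrix.map_apply, zc]
      push_cast
      rfl
    rw [h1, hBk]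
    by_cases hi : i = i₁
    · rw [if_pos hi, hi, hi₁, ha]
      simp only [Pi.zero_apply]
      field_simp
      ring
    · rw [if_neg hi, huniq i hi]
      simp
  have hk'0 : k' ≠ 0 := by
    intro h
    have h1 : a • x = 0 := by
      rw [← hk'x, h]
      funext i
      simp [zc]
    rcases smul_eq_zero.1 h1 with h2 | h2
    · exact ha0 h2
    · exact hx.1 h2
  have hval : ∀ e, |hat V k' e| ≤ 1 := by
    intro e
    have h1 : hat V k' e = (B.updateRow i₁ (V e)).det := by
      rw [← Matrix.cramer_transpose_apply, Matrix.cramer_eq_adjugate_mulVec,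
        ← Matrix.adjugate_transpose]
      simp only [hat, Matrix.mulVec, dotProduct, Matrix.transpose_apply, k']
      exact sum_congr rfl fun i _ => mul_comm _ _
    have h2 : B.updateRow i₁ (V e) = (Matrix.of V).submatrix (Function.update E i₁ e) id := by
      ext i j
      by_cases hi : i = i₁
      · subst hi
        simp [Matrix.updateRow_self]
      · rw [Matrix.updateRow_ne hi]
        simp [B, Function.update_of_ne hi]
    rw [h1, h2]
    obtain ⟨ε, hε⟩ := (Matrix.isTotallyUnimodular_iff _).1 hV g (Function.update E i₁ e) id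
    rw [← hε]
    rcases ε with _ | _ | _ <;> simp
  have hrel : ∀ e, (hat V k' e : ℝ) = a * rhat V x e := by
    intro e
    rw [← rhat_zc, hk'x, rhat_smul]
  rcases lt_or_gt_of_ne ha0 with hneg | hpos
  · refine ⟨-k', neg_ne_zero.2 hk'0, fun e => ⟨?_, fun he => ?_⟩⟩
    · rw [hat_neg, abs_neg]
      exact hval e
    · rw [hat_neg] at he ⊢
      have h1 : rhat V x e ≠ 0 := by
        intro h
        apply he
        have h2 := hrel e
        rw [h, mul_zero] at h2
        have h3 : hat V k' e = 0 := by exact_mod_cast h2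
        rw [h3, neg_zero]
      have h2 := hx.2 e h1
      have h3 : (0 : ℝ) < ((-hat V k' e * hat V n e : ℤ) : ℝ) := by
        push_cast
        rw [hrel e]
        nlinarith
      exact_mod_cast h3
  · refine ⟨k', hk'0, fun e => ⟨hval e, fun he => ?_⟩⟩
    have h1 : rhat V x e ≠ 0 := by
      intro h
      apply he
      have h2 := hrel e
      rw [h, mul_zero] at h2
      exact_mod_cast h2
    have h2 := hx.2 e h1
    have h3 : (0 : ℝ) < ((hat V k' e * hat V n e : ℤ) : ℝ) := by
      push_cast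
      rw [hrel e]
      nlinarith
    exact_mod_cast h3

end Pool.TCD
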